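import Pool.Agent.H69.FP.H
import Pool.Graph.R_pool_sql_team_seeded_63374d34.Results.MP_de94ef_pr.InnerHalf

/-!
# First-passage percolation: slow rates of decay are enough
-/

set_option autoImplicit false

open MeasureTheory ProbabilityTheory Filter
open scoped Pointwise

namespace Pool.Agent.Results.MP_de94ef_pr.SlowRates

/-- The passage time from `u` to `v` for the edge weights `w`. -/
noncomputable def PassageTime (w : Sym2 (ℤ × ℤ) → ℝ) (u v : ℤ × ℤ) : ℝ :=
  sInf {s : ℝ | ∃ n : ℕ, ∃ p : ℕ → ℤ × ℤ, p 0 = u ∧ p n = v ∧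
    (∀ i < n, |(p (i + 1)).1 - (p i).1| + |(p (i + 1)).2 - (p i).2| = 1) ∧
    s = ∑ i ∈ Finset.range n, w s(p i, p (i + 1))}

/-- The weights `X e` are independent exponential variables with parameter 1, and `μ` is the time
constant: a continuous function, homogeneous of degree 1, with `T(0, n z) / n → μ z` a.s. -/
structure Model {Ω : Type} [MeasurableSpace Ω] (P : Measure Ω) (X : Sym2 (ℤ × ℤ) → Ω → ℝ)
    (μ : ℝ × ℝ → ℝ) : Prop where
  measurable : ∀ e, Measurable (X e)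
  independent : iIndepFun X P
  exponential : ∀ e, Measure.map (X e) P = expMeasure 1
  homogeneous : ∀ (x : ℝ × ℝ) (c : ℝ), 0 ≤ c → μ (c • x) = c * μ x
  continuous : Continuous μ
  limit : ∀ z : ℤ × ℤ, ∀ᵐ ω ∂P,
    Tendsto (fun n : ℕ => PassageTime (fun e => X e ω) 0 ((n : ℤ) • z) / (n : ℝ)) atTop
      (nhds (μ ((z.1 : ℝ), (z.2 : ℝ))))

/-- The norm `|v₁| + |v₂|` of a lattice point. -/
noncomputable def size (v : ℤ × ℤ) : ℝ := |(v.1 : ℝ)| + |(v.2 : ℝ)|

/-- The time constant at a lattice point. -/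
noncomputable def mu (μ : ℝ × ℝ → ℝ) (v : ℤ × ℤ) : ℝ := μ ((v.1 : ℝ), (v.2 : ℝ))

/-- The fattened cluster at time `t`. -/
def Cluster (w : Sym2 (ℤ × ℤ) → ℝ) (t : ℝ) : Set (ℝ × ℝ) :=
  {x : ℝ × ℝ | ∃ v : ℤ × ℤ, PassageTime w 0 v ≤ t ∧
    |x.1 - (v.1 : ℝ)| ≤ 1 / 2 ∧ |x.2 - (v.2 : ℝ)| ≤ 1 / 2}

section

variable {Ω : Type} [MeasurableSpace Ω] (P : Measure Ω) (X : Sym2 (ℤ × ℤ) → Ω → ℝ)
  (μ : ℝ × ℝ → ℝ)

/-- The probability that the cluster at time `t` is not contained in `(1 + r) t 𝔸`, where `𝔸` is the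
limit shape. -/
noncomputable def leaveProb (r t : ℝ) : ℝ :=
  (P {ω | ¬ (Cluster (fun e => X e ω) t ⊆ ((1 + r) * t) • {x : ℝ × ℝ | μ x ≤ 1})}).toReal

/-- The probability that the cluster at time `t` misses a part of `(1 - r) t 𝔸`. -/
noncomputable def missProb (r t : ℝ) : ℝ :=
  (P {ω | ¬ (((1 - r) * t) • {x : ℝ × ℝ | μ x ≤ 1} ⊆ Cluster (fun e => X e ω) t)}).toReal

/-- The probability that `T(0, v) < μ(v) - s`. -/
noncomputable def lowProb (s : ℝ) (v : ℤ × ℤ) : ℝ :=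
  (P {ω | PassageTime (fun e => X e ω) 0 v < mu μ v - s}).toReal

/-- The probability that `T(0, v) > μ(v) + s`. -/
noncomputable def upProb (s : ℝ) (v : ℤ × ℤ) : ℝ :=
  (P {ω | mu μ v + s < PassageTime (fun e => X e ω) 0 v}).toReal

/-- The mean of `T(0, v)`. -/
noncomputable def meanTime (v : ℤ × ℤ) : ℝ := ∫ ω, PassageTime (fun e => X e ω) 0 v ∂P

/-- The probability that `T(0, v) < E T(0, v) - s`. -/
noncomputable def lowMeanProb (s : ℝ) (v : ℤ × ℤ) : ℝ :=
  (P {ω | PassageTime (fun e => X e ω) 0 v < meanTime P X v - s}).toReal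

/-- The probability that `T(0, v) < E T(0, v) - s` for some `v` with `|v| = n`. -/
noncomputable def sphereProb (s : ℝ) (n : ℕ) : ℝ :=
  (P {ω | ∃ v : ℤ × ℤ, size v = n ∧
    PassageTime (fun e => X e ω) 0 v < meanTime P X v - s}).toReal

/-- The probability that `|T(0, v) - m| > s`. -/
noncomputable def devProb (m s : ℝ) (v : ℤ × ℤ) : ℝ :=
  (P {ω | s < |PassageTime (fun e => X e ω) 0 v - m|}).toReal

/-- First half of the question at the exponent `b`: rapid decay. For `b = 1 / 3` this is the first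
half of Q1. -/
def OuterRapid (b : ℝ) : Prop := ∀ ζ : ℝ, 0 < ζ → ζ < 1 - b → ∀ q : ℝ, 0 < q →
  Asymptotics.IsBigO atTop (fun t : ℝ => leaveProb P X μ (t ^ (b - 1 + ζ)) t) (fun t : ℝ => t ^ (-q))

/-- Second half of the question at the exponent `b`: rapid decay. For `b = 1 / 3` this is the second
half of Q1. -/
def InnerRapid (b : ℝ) : Prop := ∀ ζ : ℝ, 0 < ζ → ζ < 1 - b → ∀ q : ℝ, 0 < q →
  Asymptotics.IsBigO atTop (fun t : ℝ => missProb P X μ (t ^ (b - 1 + ζ)) t) (fun t : ℝ => t ^ (-q))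

/-- Slow decay: for `r = t ^ (b - 1 + ζ)` the probability that the cluster leaves `(1 + r) t 𝔸` is
`O(r)`. -/
def OuterSlow (b : ℝ) : Prop := ∀ ζ : ℝ, 0 < ζ → ζ < 1 - b →
  Asymptotics.IsBigO atTop (fun t : ℝ => leaveProb P X μ (t ^ (b - 1 + ζ)) t)
    (fun t : ℝ => t ^ (b - 1 + ζ))

/-- No decay: for `r = t ^ (b - 1 + ζ)` and large `t` the probability that the cluster misses a part
of `(1 - r) t 𝔸` is at most some `e < exp (-1)`. -/
def InnerWeak (b : ℝ) : Prop := ∀ ζ : ℝ, 0 < ζ → ζ < 1 - b → ∃ e : ℝ, e < Real.exp (-1) ∧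
  ∀ᶠ t : ℝ in atTop, missProb P X μ (t ^ (b - 1 + ζ)) t ≤ e

/-- `T(0, v) < μ(v) - |v| ^ (b + ζ)` has probability `O(|v| ^ (-2 (1 - b) + ζ))`. -/
def LowSlow (b : ℝ) : Prop := ∀ ζ : ℝ, 0 < ζ → ∃ C : ℝ, ∀ v : ℤ × ℤ, v ≠ 0 →
  lowProb P X μ (size v ^ (b + ζ)) v ≤ C * size v ^ (-(2 * (1 - b)) + ζ)

/-- For large `|v|` the probability of `T(0, v) > μ(v) + |v| ^ (b + ζ)` is at most some
`e < exp (-1)`. -/
def UpWeak (b : ℝ) : Prop := ∀ ζ : ℝ, 0 < ζ → ∃ e : ℝ, e < Real.exp (-1) ∧ ∃ R : ℝ,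
  ∀ v : ℤ × ℤ, R ≤ size v → upProb P X μ (size v ^ (b + ζ)) v ≤ e

/-- One-sided condition about the mean on spheres: the probability that
`T(0, v) < E T(0, v) - n ^ (b + ζ)` for some `v` with `|v| = n` is `O(n ^ (b - 1 + ζ))`. -/
def SphereSlow (b : ℝ) : Prop := ∀ ζ : ℝ, 0 < ζ → ζ < 1 - b →
  Asymptotics.IsBigO atTop (fun n : ℕ => sphereProb P X ((n : ℝ) ^ (b + ζ)) n)
    (fun n : ℕ => (n : ℝ) ^ (b - 1 + ζ))

/-- One-sided condition about the mean at one point: `T(0, v) < E T(0, v) - |v| ^ (b + ζ)` has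
probability `O(|v| ^ (-2 (1 - b) + ζ))`. -/
def MeanSlow (b : ℝ) : Prop := ∀ ζ : ℝ, 0 < ζ → ∃ C : ℝ, ∀ v : ℤ × ℤ, v ≠ 0 →
  lowMeanProb P X (size v ^ (b + ζ)) v ≤ C * size v ^ (-(2 * (1 - b)) + ζ)

/-- Concentration about arbitrary numbers: for some numbers `m(v)`, `|T(0, v) - m(v)| > |v| ^ (b + ζ)`
has probability `O(|v| ^ (-2 (1 - b) + ζ))`. -/
def ConcSlow (b : ℝ) : Prop := ∀ ζ : ℝ, 0 < ζ → ∃ m : ℤ × ℤ → ℝ, ∃ C : ℝ, ∀ v : ℤ × ℤ, v ≠ 0 →
  devProb P X (m v) (size v ^ (b + ζ)) v ≤ C * size v ^ (-(2 * (1 - b)) + ζ)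

end

open Q70.Fp Q69.FL Pool.Agent.H69.FP
open Q69.FM (hm)

lemma passage_eq (w : Sym2 (ℤ × ℤ) → ℝ) (u v : ℤ × ℤ) : PassageTime w u v = TT w u v := by
  unfold PassageTime TT
  congr 1
  ext s
  constructor
  · rintro ⟨n, p, h1, h2, h3, h4⟩
    exact ⟨n, p, ⟨h1, h2, h3⟩, h4⟩
  · rintro ⟨n, p, ⟨h1, h2, h3⟩, h4⟩
    exact ⟨n, p, h1, h2, h3, h4⟩

lemma size_eq (v : ℤ × ℤ) : size v = (dd 0 v : ℝ) := by
  simp only [size, dd, Prod.fst_zero, Prod.snd_zero, sub_zero]
  push_cast [Nat.cast_natAbs]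
  rfl

lemma size_le (u : ℤ × ℤ) (n : ℕ) : size u ≤ (n:ℝ) ↔ u ∈ ball n 0 := by
  rw [size_eq, mem_ball, Nat.cast_le]

/-- a stretched exponential is smaller than a power -/
lemma exp_small {κ q : ℝ} (hκ : 0 < κ) (hq : 0 < q) :
    ∃ C : ℝ, 0 < C ∧ ∀ x : ℝ, 1 ≤ x → Real.exp (-(x ^ κ)) ≤ C * x ^ (-q) := by
  obtain ⟨C, hC, h⟩ := exp_poly (q / κ) (by positivity) (c := 1) one_pos
  refine ⟨C, hC, fun x hx => ?_⟩
  have := h (x ^ κ) (Real.one_le_rpow hx hκ.le)
  rwa [one_mul, ← Real.rpow_mul (by linarith), show κ * -(q / κ) = -q by field_simp] at this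

/-- For independent exponential edge weights on the square lattice and every exponent `b` between `0`
and `1`, the question (which is Q1 for `b = 1 / 3`) is equivalent to slow rates of decay. -/
theorem result {Ω : Type} [MeasurableSpace Ω] (P : Measure Ω) [IsProbabilityMeasure P]
    (X : Sym2 (ℤ × ℤ) → Ω → ℝ) (μ : ℝ × ℝ → ℝ) (hM : Model P X μ) (b : ℝ) (hb : 0 < b)
    (hb1 : b < 1) :
    List.TFAE [
      OuterRapid P X μ b ∧ InnerRapid P X μ b,
      OuterSlow P X μ b ∧ InnerWeak P X μ b,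
      LowSlow P X μ b ∧ UpWeak P X μ b,
      SphereSlow P X b,
      MeanSlow P X b,
      ConcSlow P X b] := by
  have hW : Wts P X := ⟨hM.measurable, hM.independent, hM.exponential⟩
  have hS : Shape μ := hW.shape hM.homogeneous hM.continuous (by
    intro z
    filter_upwards [hM.limit z] with ω hω
    simpa only [passage_eq] using hω)
  have hsub : Q69.FM.Sub (mz μ) :=
    ⟨mz_zero hS, Q69.FL.mz_add hS, mz_up hS, mz_lip hS, mz_low hS⟩
  have hdd1 : ∀ v : ℤ × ℤ, v ≠ 0 → (1:ℝ) ≤ dd 0 v := fun v hv => by exact_mod_cast dd_pos hv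
  -- translation of the probabilities
  have elow : ∀ s v, lowProb P X μ s v = nu.real {w | TT (pw w) 0 v < mz μ v - s} := by
    intro s v
    have := hW.real v (measurableSet_Iio (a := mz μ v - s))
    unfold lowProb
    simp only [passage_eq]
    exact this
  have eup : ∀ s v, upProb P X μ s v = nu.real {w | mz μ v + s < TT (pw w) 0 v} := by
    intro s v
    have := hW.real v (measurableSet_Ioi (a := mz μ v + s))
    unfold upProb
    simp only [passage_eq]
    exact this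
  have emean : ∀ v, meanTime P X v = hm v := by
    intro v
    unfold meanTime hm
    simp only [passage_eq]
    exact hW.int v (g := fun x => x) measurable_id
  have elowm : ∀ s v, lowMeanProb P X s v = nu.real {w | TT (pw w) 0 v < hm v - s} := by
    intro s v
    have := hW.real v (measurableSet_Iio (a := hm v - s))
    unfold lowMeanProb
    simp only [passage_eq, emean]
    exact this
  have edev : ∀ m s v, devProb P X m s v = nu.real {w | s < |TT (pw w) 0 v - m|} := by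
    intro m s v
    have := hW.real v (S := {x : ℝ | s < |x - m|})
      (measurableSet_lt measurable_const (continuous_abs.measurable.comp (measurable_id.sub_const _)))
    unfold devProb
    simp only [passage_eq]
    exact this
  have esph : ∀ s (n : ℕ), sphereProb P X s n = nu.real {w | Sx (pw w) 0 n s} := by
    intro s n
    refine real_transfer hW (measurable_Sx 0 n s) ?_
    intro ω hω
    show (∃ v : ℤ × ℤ, size v = n ∧ PassageTime (fun e => X e ω) 0 v < meanTime P X v - s) ↔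
      Sx (pw (fun e => X e ω)) 0 n s
    rw [hω]
    unfold Sx
    simp only [passage_eq, emean, size_eq, Nat.cast_inj, sub_zero]
  have eleave : ∀ r t, leaveProb P X μ r t = (P (Ou X μ ((1 + r) * t) t)).toReal := by
    intro r t
    unfold leaveProb Ou Cluster
    simp only [passage_eq]
  have emiss : ∀ r t, missProb P X μ r t = (P (Fl X μ ((1 - r) * t) t)).toReal := by
    intro r t
    unfold missProb Fl Cluster
    simp only [passage_eq]
  -- the bridges between the question and the one-point bounds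
  have seOuter : (∀ a, b < a → Se μ a) → OuterRapid P X μ b := by
    intro hSe ζ hζ hζ1 q hq
    obtain ⟨κ, hκ, hU⟩ := outer_of_Se (P := P) (X := X) hW hS hb hSe hζ
    obtain ⟨C1, hC1, hE⟩ := exp_small hκ hq
    refine Asymptotics.IsBigO.of_bound (2 * C1) ?_
    filter_upwards [hU, eventually_ge_atTop 1] with t ht ht1
    rw [eleave, Real.norm_eq_abs, abs_of_nonneg ENNReal.toReal_nonneg, Real.norm_eq_abs,
      abs_of_nonneg (by positivity)]
    have := hE t ht1
    linarith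
  have outerSe : OuterRapid P X μ b → ∀ a, b < a → Se μ a := by
    intro h1 a ha
    set ζ : ℝ := min ((a - b) / 2) ((1 - b) / 2) with hζ
    have h0 : 0 < ζ := lt_min (by linarith) (by linarith)
    have h2 : ζ ≤ (a - b) / 2 := min_le_left _ _
    have h3 : ζ ≤ (1 - b) / 2 := min_le_right _ _
    have h4 : Ll μ (b + ζ) (3 * (1 - b)) := by
      refine ll_of_outer hW hS hb h0 (by linarith) (by linarith) ?_
      simpa only [eleave] using h1 (ζ / 2) (by linarith) (by linarith) (3 * (1 - b)) (by linarith)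
    exact boostL hS (b0 := b + ζ) (q := 3 * (1 - b)) (by linarith) (by linarith) (by linarith)
      (by linarith) h4 (by linarith)
  have seInner : (∀ a, b < a → SeU μ a) → InnerRapid P X μ b := by
    intro hSe ζ hζ hζ1 q hq
    have := inner_of_HH (P := P) (X := X) hW hS hb (fun a ha => HH_of_SeU (hSe a ha)) hζ hζ1 hq
    simpa only [emiss] using this
  have tlSe : (∀ ζ : ℝ, 0 < ζ → ∃ δ : ℝ, 0 < δ ∧ Tl μ (b + ζ) δ) → ∀ a, b < a → SeU μ a :=
    fun hT a ha => boostU hS hb hb1 (fun a ha => boost hS hb hb1 hT ha) ha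
  have innerSe : InnerRapid P X μ b → ∀ a, b < a → SeU μ a := by
    intro h1
    refine tlSe (tl_of_inner (P := P) (X := X) hW hS hb hb1 fun ζ hζ hζ1 => ⟨1, one_pos, ?_⟩)
    simpa only [emiss] using h1 ζ hζ hζ1 1 one_pos
  -- the results of the library on the upper tail
  let _ : MeasureSpace Ω := ⟨P⟩
  have hlib := Pool.Agent.Results.MP_de94ef_pr.InnerHalf.result Ω X
    (fun ω v => PassageTime (fun e => X e ω) 0 v) μ hM.measurable hM.independent hM.exponential
    (fun ω v => rfl) hM.homogeneous hM.continuous hM.limit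
  obtain ⟨-, hone, -, -, htfae⟩ := hlib
  have weakInner : InnerWeak P X μ b → InnerRapid P X μ b := by
    intro h1
    have h2 := (htfae (1 - b) (by linarith)).out 0 1
    have h3 := h2.1 (by
      intro κ hκ0 hκ1
      obtain ⟨e, he, h4⟩ := h1 (1 - b - κ) (by linarith) (by linarith)
      refine ⟨e, he, ?_⟩
      filter_upwards [h4] with t ht
      rw [show b - 1 + (1 - b - κ) = -κ by ring] at ht
      exact ht)
    intro ζ hζ hζ1 q hq
    have h5 := h3 (1 - b - ζ) (by linarith) (by linarith) q hq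
    rw [show b - 1 + ζ = -(1 - b - ζ) by ring]
    exact h5
  have hlc : ∀ (v : ℤ × ℤ) (r d : ℝ), 0 < r → 0 < d →
      nu.real {w | mz μ v + r ≤ TT (pw w) 0 v} ≤ Real.exp (-(1 + d)) →
      ∀ u : ℝ, 0 ≤ u → nu.real {w | mz μ v + r + u ≤ TT (pw w) 0 v} ≤
        Real.exp (-(1 + d + d * u / r)) := by
    intro v r d hr hd h1 u hu
    have e1 : ∀ s : ℝ, P.real {ω | s ≤ PassageTime (fun e => X e ω) 0 v} =
        nu.real {w | s ≤ TT (pw w) 0 v} := by
      intro s
      simp only [passage_eq]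
      exact hW.real v (measurableSet_Ici (a := s))
    have h2 := (hone v r d hr hd (by
      show P.real {ω | mz μ v + r ≤ PassageTime (fun e => X e ω) 0 v} ≤ _
      rw [e1]
      exact h1)).1 u hu
    have h3 : P.real {ω | mz μ v + r + u ≤ PassageTime (fun e => X e ω) 0 v} ≤
        Real.exp (-(1 + d + d * u / r)) := h2
    rwa [e1] at h3
  have weakUp : UpWeak P X μ b → ∀ a, b < a → SeU μ a := by
    intro h1 a ha
    obtain ⟨e, he, R, hR⟩ := h1 ((a - b) / 2) (by linarith)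
    refine SeU_of_weak (a0 := b + (a - b) / 2) (by linarith) he hlc ?_
    filter_upwards [tendsto_natCast_atTop_atTop.eventually_ge_atTop R] with n hn v hv
    have h2 := hR v (by rw [size_eq, hv]; exact hn)
    rw [eup, size_eq, hv] at h2
    exact h2
  have lowBx : (∀ a, b < a → SeU μ a) → (∀ ζ : ℝ, 0 < ζ → ζ ≤ (1 - b) / 2 →
      ∀ᶠ n : ℕ in atTop, nu.real (BadBox μ n ((n:ℝ) ^ (b + ζ))) ≤ 1 / 2) →
      ∀ a, b < a → Se μ a := by
    intro _ h1 a ha
    refine Q69.FM.boostB hsub hb (fun ζ hζ => ?_) ha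
    have k0 : 0 < min ζ ((1 - b) / 2) := lt_min hζ (by linarith)
    exact Bx_mono (min_le_left _ _) (Bx_of_half k0 (h1 _ k0 (min_le_right _ _)))
  tfae_have 1 → 2 := by
    rintro ⟨h1, h2⟩
    refine ⟨fun ζ hζ hζ1 => ?_, fun ζ hζ hζ1 => ?_⟩
    · refine (h1 ζ hζ hζ1 1 one_pos).trans (Asymptotics.IsBigO.of_bound 1 ?_)
      filter_upwards [eventually_ge_atTop 1] with t ht
      have ht0 : 0 < t := by linarith
      rw [one_mul, Real.norm_eq_abs, abs_of_pos (by positivity), Real.norm_eq_abs,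
        abs_of_pos (by positivity)]
      exact Real.rpow_le_rpow_of_exponent_le ht (by linarith)
    · refine ⟨Real.exp (-1) / 2, by linarith [Real.exp_pos (-1)], ?_⟩
      obtain ⟨C, hC⟩ := (h2 ζ hζ hζ1 1 one_pos).bound
      filter_upwards [hC, eventually_ge_atTop 1,
        rpow_small (c := -1) (a := 0) (K := C * (2 / Real.exp (-1))) (by norm_num)] with t h3 h4 h5
      rw [Real.rpow_zero] at h5
      rw [Real.norm_eq_abs, Real.norm_eq_abs, abs_of_pos (show 0 < t ^ (-1:ℝ) by positivity)] at h3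
      have h6 := (le_abs_self _).trans h3
      refine h6.trans ?_
      have h7 : (0:ℝ) < Real.exp (-1) := Real.exp_pos _
      calc C * t ^ (-1:ℝ) = (Real.exp (-1) / 2) * (C * (2 / Real.exp (-1)) * t ^ (-1:ℝ)) := by
            field_simp
        _ ≤ (Real.exp (-1) / 2) * 1 := by gcongr
        _ = _ := mul_one _
  tfae_have 2 → 1 := by
    rintro ⟨h1, h2⟩
    have h3 := weakInner h2
    have hU := innerSe h3
    refine ⟨seOuter (lowBx hU fun ζ hζ hζ1 => ?_), h3⟩
    obtain ⟨C, hC⟩ := (h1 (ζ / 2) (by linarith) (by linarith)).bound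
    refine half_of_leave hS (C := max C 1) hb hζ hζ1 (lt_max_of_lt_right one_pos) ?_
      (hU _ (by linarith))
    filter_upwards [hC, eventually_ge_atTop 1] with t h4 ht
    have ht0 : 0 < t := by linarith
    rw [Real.norm_eq_abs, Real.norm_eq_abs,
      abs_of_pos (show 0 < t ^ (b - 1 + ζ / 2) by positivity)] at h4
    have h5 := (le_abs_self _).trans h4
    rw [eleave, one_add_mul ht0] at h5
    refine (Dx_le_Ou hW hS (by positivity)).trans (h5.trans ?_)
    gcongr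
    exact le_max_left _ _
  tfae_have 1 → 3 := by
    rintro ⟨h1, h2⟩
    refine ⟨fun ζ hζ => ?_, fun ζ hζ => ?_⟩
    · obtain ⟨κ, c, C, hκ, hc, hC, hU⟩ := outerSe h1 (b + ζ) (by linarith)
      obtain ⟨C1, hC1, hE⟩ := exp_poly ((2 * (1 - b)) / κ) (div_pos (by linarith) hκ) hc
      refine ⟨C * C1, fun v hv => ?_⟩
      have hn := hdd1 v hv
      rw [elow, size_eq]
      refine (hU v hv).trans ?_
      have e1 := hE ((dd 0 v : ℝ) ^ κ) (Real.one_le_rpow hn hκ.le)
      rw [← Real.rpow_mul (by linarith), show κ * -((2 * (1 - b)) / κ) = -(2 * (1 - b)) by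
        field_simp] at e1
      have e2 : (dd 0 v : ℝ) ^ (-(2 * (1 - b))) ≤ (dd 0 v : ℝ) ^ (-(2 * (1 - b)) + ζ) :=
        Real.rpow_le_rpow_of_exponent_le hn (by linarith)
      rw [mul_assoc]
      exact mul_le_mul_of_nonneg_left (e1.trans (mul_le_mul_of_nonneg_left e2 hC1.le)) hC.le
    · obtain ⟨C, hC, hU⟩ := HH_of_SeU (innerSe h2 (b + ζ) (by linarith)) 1 one_pos
      refine ⟨Real.exp (-1) / 2, by linarith [Real.exp_pos (-1)],
        max 1 (C * (2 / Real.exp (-1))), fun v hv => ?_⟩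
      have h7 : (0:ℝ) < Real.exp (-1) := Real.exp_pos _
      have hv1 : (1:ℝ) ≤ dd 0 v := by rw [← size_eq]; exact (le_max_left _ _).trans hv
      have hv2 : C * (2 / Real.exp (-1)) ≤ dd 0 v := by
        rw [← size_eq]; exact (le_max_right _ _).trans hv
      have hv0 : v ≠ 0 := by
        rintro rfl
        rw [dd_self] at hv1
        norm_num at hv1
      rw [eup, size_eq]
      refine (hU v hv0).trans ?_
      rw [Real.rpow_neg_one]
      have h8 : (0:ℝ) < dd 0 v := by linarith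
      rw [← div_eq_mul_inv, div_le_iff₀ h8]
      calc C = (Real.exp (-1) / 2) * (C * (2 / Real.exp (-1))) := by field_simp
        _ ≤ _ := by gcongr
  tfae_have 3 → 1 := by
    rintro ⟨h1, h2⟩
    have hU := weakUp h2
    refine ⟨seOuter (lowBx hU fun ζ hζ hζ1 => ?_), seInner hU⟩
    obtain ⟨C, hC⟩ := h1 (ζ / 2) (by linarith)
    refine half_of_pairs hS hb hζ hζ1 ⟨max C 1, lt_max_of_lt_right one_pos, fun v hv => ?_⟩
      (hU _ (by linarith))
    have h3 := hC v hv
    rw [elow, size_eq, show -(2 * (1 - b)) + ζ / 2 = -(2 * (1 - b) - ζ / 2) by ring] at h3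
    refine h3.trans ?_
    gcongr
    exact le_max_left _ _
  tfae_have 1 → 6 := by
    rintro ⟨h1, h2⟩ ζ hζ
    obtain ⟨κ, c, C, hκ, hc, hC, hU⟩ := outerSe h1 (b + ζ) (by linarith)
    obtain ⟨κ', c', C', hκ', hc', hC', hU'⟩ := innerSe h2 (b + ζ) (by linarith)
    obtain ⟨C1, hC1, hE⟩ := exp_poly ((2 * (1 - b)) / κ) (div_pos (by linarith) hκ) hc
    obtain ⟨C2, hC2, hE'⟩ := exp_poly ((2 * (1 - b)) / κ') (div_pos (by linarith) hκ') hc'
    refine ⟨mz μ, C * C1 + C' * C2, fun v hv => ?_⟩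
    have hn := hdd1 v hv
    rw [edev, size_eq]
    have hsub2 : {w : Ed → ℝ | (dd 0 v : ℝ) ^ (b + ζ) < |TT (pw w) 0 v - mz μ v|} ⊆
        {w | TT (pw w) 0 v < mz μ v - (dd 0 v : ℝ) ^ (b + ζ)} ∪
        {w | mz μ v + (dd 0 v : ℝ) ^ (b + ζ) < TT (pw w) 0 v} := by
      intro w hw
      rcases lt_abs.1 (show (dd 0 v : ℝ) ^ (b + ζ) < |TT (pw w) 0 v - mz μ v| from hw) with h | h
      · right
        show mz μ v + (dd 0 v : ℝ) ^ (b + ζ) < TT (pw w) 0 v
        linarith
      · left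
        show TT (pw w) 0 v < mz μ v - (dd 0 v : ℝ) ^ (b + ζ)
        linarith
    refine (measureReal_mono hsub2 (measure_ne_top _ _)).trans ((measureReal_union_le _ _).trans ?_)
    have e1 := hE ((dd 0 v : ℝ) ^ κ) (Real.one_le_rpow hn hκ.le)
    rw [← Real.rpow_mul (by linarith), show κ * -((2 * (1 - b)) / κ) = -(2 * (1 - b)) by
      field_simp] at e1
    have e1' := hE' ((dd 0 v : ℝ) ^ κ') (Real.one_le_rpow hn hκ'.le)
    rw [← Real.rpow_mul (by linarith), show κ' * -((2 * (1 - b)) / κ') = -(2 * (1 - b)) by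
      field_simp] at e1'
    have e2 : (dd 0 v : ℝ) ^ (-(2 * (1 - b))) ≤ (dd 0 v : ℝ) ^ (-(2 * (1 - b)) + ζ) :=
      Real.rpow_le_rpow_of_exponent_le hn (by linarith)
    rw [add_mul, mul_assoc, mul_assoc]
    exact add_le_add
      ((hU v hv).trans (mul_le_mul_of_nonneg_left (e1.trans (mul_le_mul_of_nonneg_left e2 hC1.le))
        hC.le))
      ((hU' v hv).trans (mul_le_mul_of_nonneg_left (e1'.trans (mul_le_mul_of_nonneg_left e2 hC2.le))
        hC'.le))
  tfae_have 6 → 5 := by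
    intro h6 ζ0 hζ0
    set ζ2 : ℝ := min ζ0 ((1 - b) / 2) with hζ2
    have k0 : 0 < ζ2 := lt_min hζ0 (by linarith)
    have k1 : ζ2 ≤ ζ0 := min_le_left _ _
    have k2 : ζ2 ≤ (1 - b) / 2 := min_le_right _ _
    obtain ⟨m, C, hC⟩ := h6 (2 * ζ2 / 3) (by linarith)
    obtain ⟨C', hC', hL⟩ := Q69.FM.low_of_conc (b := b + ζ2 / 3) (ζ := ζ2 / 3)
      (q := 2 * (1 - b) - 2 * ζ2 / 3) (C := C) (by linarith) (by linarith) (by linarith) m (by
        intro v hv
        have := hC v hv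
        rw [edev, size_eq, show -(2 * (1 - b)) + 2 * ζ2 / 3 = -(2 * (1 - b) - 2 * ζ2 / 3) by ring,
          show b + 2 * ζ2 / 3 = b + ζ2 / 3 + ζ2 / 3 by ring] at this
        exact this)
    refine ⟨C', fun v hv => ?_⟩
    have hn := hdd1 v hv
    rw [elowm, size_eq]
    have e1 : (dd 0 v : ℝ) ^ (b + ζ2 / 3 + 2 * (ζ2 / 3)) ≤ (dd 0 v : ℝ) ^ (b + ζ0) :=
      Real.rpow_le_rpow_of_exponent_le hn (by linarith)
    have e2 : (dd 0 v : ℝ) ^ (-(2 * (1 - b) - 2 * ζ2 / 3)) ≤
        (dd 0 v : ℝ) ^ (-(2 * (1 - b)) + ζ0) :=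
      Real.rpow_le_rpow_of_exponent_le hn (by linarith)
    refine le_trans (measureReal_mono ?_ (measure_ne_top _ _)) ((hL v hv).trans
      (mul_le_mul_of_nonneg_left e2 hC'.le))
    intro w hw
    have hw' : TT (pw w) 0 v < hm v - (dd 0 v : ℝ) ^ (b + ζ0) := hw
    show TT (pw w) 0 v < hm v - (dd 0 v : ℝ) ^ (b + ζ2 / 3 + 2 * (ζ2 / 3))
    linarith
  tfae_have 5 → 4 := by
    intro h5 ζ hζ hζ1
    obtain ⟨C, hC⟩ := h5 (ζ / 2) (by linarith)
    obtain ⟨C', hC', h6⟩ := sphere_of_point (C := max C 1) hb hζ hζ1 (lt_max_of_lt_right one_pos) (by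
      intro v hv
      have := hC v hv
      rw [elowm, size_eq, show -(2 * (1 - b)) + ζ / 2 = -(2 * (1 - b) - ζ / 2) by ring] at this
      refine this.trans ?_
      gcongr
      exact le_max_left _ _)
    refine Asymptotics.IsBigO.of_bound C' ?_
    filter_upwards [h6] with n hn
    rw [esph, Real.norm_eq_abs, abs_of_nonneg measureReal_nonneg, Real.norm_eq_abs,
      abs_of_nonneg (by positivity)]
    exact hn
  tfae_have 4 → 1 := by
    intro h4
    have h5 : ∀ ζ : ℝ, 0 < ζ → ζ < 1 - b → ∃ C : ℝ, 0 < C ∧ ∀ᶠ n : ℕ in atTop,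
        nu.real {w | Sx (pw w) 0 n ((n:ℝ) ^ (b + ζ))} ≤ C * (n:ℝ) ^ (b - 1 + ζ) := by
      intro ζ hζ hζ1
      obtain ⟨C, hC⟩ := (h4 ζ hζ hζ1).bound
      refine ⟨max C 1, lt_max_of_lt_right one_pos, ?_⟩
      filter_upwards [hC] with n hn
      rw [esph, Real.norm_eq_abs, abs_of_nonneg measureReal_nonneg, Real.norm_eq_abs,
        abs_of_nonneg (by positivity)] at hn
      refine hn.trans ?_
      gcongr
      exact le_max_left _ _
    have h6 : ∀ ζ : ℝ, 0 < ζ → ζ < 1 - b → ∃ C : ℝ, 0 < C ∧ ∀ v : ℤ × ℤ, v ≠ 0 →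
        nu.real {w | TT (pw w) 0 v < hm v - (dd 0 v : ℝ) ^ (b + ζ)} ≤
          C * (dd 0 v : ℝ) ^ (-(1 - b - ζ)) := by
      intro ζ hζ hζ1
      obtain ⟨C, hC, hC'⟩ := h5 ζ hζ hζ1
      exact point_of_sphere hζ1 hC hC'
    have hU : ∀ a, b < a → SeU μ a := by
      intro a ha
      have h7 : (0:ℝ) < Real.exp (-1) := Real.exp_pos _
      exact SeU_of_weak (a0 := b + (a - b) / 2) (e := Real.exp (-1) / 2) (by linarith) (by linarith) hlc
        (up_weak_of_slow hS hb hb1 h6 (by linarith) (by linarith))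
    refine ⟨seOuter (lowBx hU fun ζ hζ hζ1 => ?_), seInner hU⟩
    obtain ⟨C, hC, hC'⟩ := h5 (ζ / 2) (by linarith) (by linarith)
    exact half_of_spheres hS hb hζ hζ1 hC hC' (hU _ (by linarith))
  tfae_finish

end Pool.Agent.Results.MP_de94ef_pr.SlowRates
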