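import Pool.Agent.H5.SY.Dbl
import Pool.Agent.H22.SY.EVEN
import Pool.Agent.H22.SY.MDC
import Pool.Agent.H29.SY.MED
import Pool.Agent.H30.SY.Box
import Pool.Agent.H30.SY.Rev
import Pool.Agent.H30.SY.Setc
import Pool.Agent.H30.SY.Stm4
import Pool.Agent.H30.SY.Stm5
import Pool.Agent.H30.SY.Stm6
import Pool.Agent.H31.SY.R3
import Pool.Agent.H31.SY.SYM2
import Pool.Agent.H40.SY.DCS
import Pool.Agent.H40.SY.R2
import Pool.Agent.H40.SY.SUM
import Pool.Agent.H40.SY.U2
import Pool.Agent.H42.SY.FUB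
import Pool.Agent.H50.SY.Chain
import Pool.Agent.H50.SY.R1
import Pool.Agent.H50.SY.U1
import Pool.Agent.H59.SY.FAR
import Pool.Agent.H59.SY.R4
import Pool.Agent.H76.SY.GEO
import Pool.Agent.H85.SY.CD
import Pool.Agent.H94.SY.ONE
import Pool.Agent.H96.SY.GEO2
import Pool.Agent.H96.SY.GEO3
import Pool.Agent.H96.SY.ONE2
import Pool.Agent.H96.SY.U3
import Pool.Agent.Results.MP_de94ef_pr.SlowRates

/-!
# First-passage percolation: the question and central symmetry of the cluster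
-/

set_option autoImplicit false

open MeasureTheory ProbabilityTheory Filter
open scoped Pointwise

namespace Pool.Agent.Results.MP_de94ef_pr.CentralSymmetry

/-- The passage time from `u` to `v` for the edge weights `w`. -/
noncomputable def PassageTime (w : Sym2 (ℤ × ℤ) → ℝ) (u v : ℤ × ℤ) : ℝ :=
  sInf {s : ℝ | ∃ n : ℕ, ∃ p : ℕ → ℤ × ℤ, p 0 = u ∧ p n = v ∧
    (∀ i < n, |(p (i + 1)).1 - (p i).1| + |(p (i + 1)).2 - (p i).2| = 1) ∧
    s = ∑ i ∈ Finset.range n, w s(p i, p (i + 1))}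

/-- The weights `X e` are independent exponential variables with parameter 1, and `μ` is the time
constant: a continuous function, homogeneous of degree 1, with `T(0, n z) / n → μ z` a.s. -/
structure Model {Ω : Type} [MeasurableSpace Ω] (P : Measure Ω) (X : Sym2 (ℤ × ℤ) → Ω → ℝ)
    (μ : ℝ × ℝ → ℝ) : Prop where
  measurable : ∀ e, Measurable (X e)
  independent : iIndepFun X P
  exponential : ∀ e, Measure.map (X e) P = expMeasure 1
  homogeneous : ∀ (x : ℝ × ℝ) (c : ℝ), 0 ≤ c → μ (c • x) = c * μ x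
  continuous : Continuous μ
  limit : ∀ z : ℤ × ℤ, ∀ᵐ ω ∂P,
    Tendsto (fun n : ℕ => PassageTime (fun e => X e ω) 0 ((n : ℤ) • z) / (n : ℝ)) atTop
      (nhds (μ ((z.1 : ℝ), (z.2 : ℝ))))

/-- The norm `|v₁| + |v₂|` of a lattice point. -/
noncomputable def size (v : ℤ × ℤ) : ℝ := |(v.1 : ℝ)| + |(v.2 : ℝ)|

/-- The fattened cluster at time `t`. -/
def Cluster (w : Sym2 (ℤ × ℤ) → ℝ) (t : ℝ) : Set (ℝ × ℝ) :=
  {x : ℝ × ℝ | ∃ v : ℤ × ℤ, PassageTime w 0 v ≤ t ∧
    |x.1 - (v.1 : ℝ)| ≤ 1 / 2 ∧ |x.2 - (v.2 : ℝ)| ≤ 1 / 2}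

/-- Failure of roundness: no dilate `ρ 𝔸` of the limit shape `𝔸` is such that the cluster at time `t`
contains `(1 - r) ρ 𝔸` and is contained in `(1 + r) ρ 𝔸`. -/
def NotRound (μ : ℝ × ℝ → ℝ) (w : Sym2 (ℤ × ℤ) → ℝ) (r t : ℝ) : Prop :=
  ∀ ρ : ℝ, 0 ≤ ρ → ¬ (((1 - r) * ρ) • {x : ℝ × ℝ | μ x ≤ 1} ⊆ Cluster w t ∧
    Cluster w t ⊆ ((1 + r) * ρ) • {x : ℝ × ℝ | μ x ≤ 1})

/-- Asymmetry of the cluster at time `t`: some vertex `v` of the cluster has no vertex `y` of the
cluster with `|y + v| ≤ r`. -/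
def Asymmetric (w : Sym2 (ℤ × ℤ) → ℝ) (r t : ℝ) : Prop :=
  ∃ v : ℤ × ℤ, PassageTime w 0 v ≤ t ∧ ∀ y : ℤ × ℤ, PassageTime w 0 y ≤ t → r < size (y + v)

/-- Failure of doubling: the cluster at time `2 t` is not within `r` of the doubled cluster at time
`t`. -/
def NotDoubled (w : Sym2 (ℤ × ℤ) → ℝ) (r t : ℝ) : Prop :=
  (∃ v : ℤ × ℤ, PassageTime w 0 v ≤ t ∧
    ∀ y : ℤ × ℤ, PassageTime w 0 y ≤ 2 * t → r < size (y - (v + v))) ∨
  (∃ y : ℤ × ℤ, PassageTime w 0 y ≤ 2 * t ∧
    ∀ v : ℤ × ℤ, PassageTime w 0 v ≤ t → r < size (y - (v + v)))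

section

variable {Ω : Type} [MeasurableSpace Ω] (P : Measure Ω) (X : Sym2 (ℤ × ℤ) → Ω → ℝ)
  (μ : ℝ × ℝ → ℝ)

/-- The probability that the cluster at time `t` is not contained in `(1 + r) t 𝔸`, where `𝔸` is the
limit shape. -/
noncomputable def leaveProb (r t : ℝ) : ℝ :=
  (P {ω | ¬ (Cluster (fun e => X e ω) t ⊆ ((1 + r) * t) • {x : ℝ × ℝ | μ x ≤ 1})}).toReal

/-- The probability that the cluster at time `t` misses a part of `(1 - r) t 𝔸`. -/
noncomputable def missProb (r t : ℝ) : ℝ :=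
  (P {ω | ¬ (((1 - r) * t) • {x : ℝ × ℝ | μ x ≤ 1} ⊆ Cluster (fun e => X e ω) t)}).toReal

/-- The probability that the cluster at time `t` is not within a factor `1 ± r` of any dilate of the
limit shape. -/
noncomputable def unroundProb (r t : ℝ) : ℝ := (P {ω | NotRound μ (fun e => X e ω) r t}).toReal

/-- The probability that the cluster at time `t` is not symmetric up to `r`. -/
noncomputable def asymProb (r t : ℝ) : ℝ := (P {ω | Asymmetric (fun e => X e ω) r t}).toReal

/-- The probability that the cluster at time `2 t` is not within `r` of the doubled cluster at time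
`t`. -/
noncomputable def undoubledProb (r t : ℝ) : ℝ :=
  (P {ω | NotDoubled (fun e => X e ω) r t}).toReal

/-- The probability that `|T(0, v) - T(0, -v)| > s`. -/
noncomputable def oppositeProb (s : ℝ) (v : ℤ × ℤ) : ℝ :=
  (P {ω | s < |PassageTime (fun e => X e ω) 0 v - PassageTime (fun e => X e ω) 0 (-v)|}).toReal

/-- The probability that `|T(0, 2 v) - 2 T(0, v)| > s`. -/
noncomputable def doubleProb (s : ℝ) (v : ℤ × ℤ) : ℝ :=
  (P {ω | s < |PassageTime (fun e => X e ω) 0 (v + v) -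
    2 * PassageTime (fun e => X e ω) 0 v|}).toReal

/-- First half of the question at the exponent `b`: rapid decay. For `b = 1 / 3` this is the first
half of Q1. -/
def OuterRapid (b : ℝ) : Prop := ∀ ζ : ℝ, 0 < ζ → ζ < 1 - b → ∀ q : ℝ, 0 < q →
  Asymptotics.IsBigO atTop (fun t : ℝ => leaveProb P X μ (t ^ (b - 1 + ζ)) t) (fun t : ℝ => t ^ (-q))

/-- Second half of the question at the exponent `b`: rapid decay. For `b = 1 / 3` this is the second
half of Q1. -/
def InnerRapid (b : ℝ) : Prop := ∀ ζ : ℝ, 0 < ζ → ζ < 1 - b → ∀ q : ℝ, 0 < q →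
  Asymptotics.IsBigO atTop (fun t : ℝ => missProb P X μ (t ^ (b - 1 + ζ)) t) (fun t : ℝ => t ^ (-q))

/-- For `r = t ^ (b - 1 + ζ)` the cluster at time `t` is within a factor `1 ± r` of some dilate of the
limit shape, outside an event of probability `O(t ^ (-2 (1 - b) + ζ))`. -/
def RoundSlow (b : ℝ) : Prop := ∀ ζ : ℝ, 0 < ζ → ζ < 1 - b →
  Asymptotics.IsBigO atTop (fun t : ℝ => unroundProb P X μ (t ^ (b - 1 + ζ)) t)
    (fun t : ℝ => t ^ (-(2 * (1 - b)) + ζ))

/-- The cluster at time `t` is symmetric up to `t ^ (b + ζ)`, outside an event whose probability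
decays faster than every power of `t`. -/
def SymmetricRapid (b : ℝ) : Prop := ∀ ζ : ℝ, 0 < ζ → ζ < 1 - b → ∀ q : ℝ, 0 < q →
  Asymptotics.IsBigO atTop (fun t : ℝ => asymProb P X (t ^ (b + ζ)) t) (fun t : ℝ => t ^ (-q))

/-- The cluster at time `t` is symmetric up to `t ^ (b + ζ)`, outside an event of probability
`O(t ^ (-2 (1 - b) + ζ))`. -/
def SymmetricSlow (b : ℝ) : Prop := ∀ ζ : ℝ, 0 < ζ → ζ < 1 - b →
  Asymptotics.IsBigO atTop (fun t : ℝ => asymProb P X (t ^ (b + ζ)) t)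
    (fun t : ℝ => t ^ (-(2 * (1 - b)) + ζ))

/-- The cluster at time `2 t` is within `t ^ (b + ζ)` of the doubled cluster at time `t`, outside an
event whose probability decays faster than every power of `t`. -/
def DoubledRapid (b : ℝ) : Prop := ∀ ζ : ℝ, 0 < ζ → ζ < 1 - b → ∀ q : ℝ, 0 < q →
  Asymptotics.IsBigO atTop (fun t : ℝ => undoubledProb P X (t ^ (b + ζ)) t) (fun t : ℝ => t ^ (-q))

/-- The cluster at time `2 t` is within `t ^ (b + ζ)` of the doubled cluster at time `t`, outside an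
event of probability `O(t ^ (-2 (1 - b) + ζ))`. -/
def DoubledSlow (b : ℝ) : Prop := ∀ ζ : ℝ, 0 < ζ → ζ < 1 - b →
  Asymptotics.IsBigO atTop (fun t : ℝ => undoubledProb P X (t ^ (b + ζ)) t)
    (fun t : ℝ => t ^ (-(2 * (1 - b)) + ζ))

/-- `|T(0, v) - T(0, -v)| > |v| ^ (b + ζ)` has probability `O(|v| ^ (-2 (1 - b) + ζ))`. -/
def OppositeSlow (b : ℝ) : Prop := ∀ ζ : ℝ, 0 < ζ → ∃ C : ℝ, ∀ v : ℤ × ℤ, v ≠ 0 →
  oppositeProb P X (size v ^ (b + ζ)) v ≤ C * size v ^ (-(2 * (1 - b)) + ζ)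

/-- `|T(0, 2 v) - 2 T(0, v)| > |v| ^ (b + ζ)` has probability `O(|v| ^ (-2 (1 - b) + ζ))`. -/
def DoubleSlow (b : ℝ) : Prop := ∀ ζ : ℝ, 0 < ζ → ∃ C : ℝ, ∀ v : ℤ × ℤ, v ≠ 0 →
  doubleProb P X (size v ^ (b + ζ)) v ≤ C * size v ^ (-(2 * (1 - b)) + ζ)

/-- For every `ζ > 0` and every large `n`, every midpoint in the box of radius `n` bisects up to
`n ^ (b + ζ)`: `|T(x, x + 2 v) - 2 T(x, x + v)| ≤ n ^ (b + ζ)` for all `|x| ≤ n`, `|v| ≤ n`. -/
def Bisecting (b : ℝ) (ω : Ω) : Prop := ∀ ζ : ℝ, 0 < ζ → ∀ᶠ n : ℕ in atTop,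
  ∀ x v : ℤ × ℤ, size x ≤ n → size v ≤ n →
    |PassageTime (fun e => X e ω) x (x + v + v) - 2 * PassageTime (fun e => X e ω) x (x + v)| ≤
      (n : ℝ) ^ (b + ζ)

/-- For every `ζ > 0` and every large `n`, opposite passage times in the box of radius `n` agree up to
`n ^ (b + ζ)`: `|T(x, x + v) - T(x, x - v)| ≤ n ^ (b + ζ)` for all `|x| ≤ n`, `|v| ≤ n`. -/
def Reflecting (b : ℝ) (ω : Ω) : Prop := ∀ ζ : ℝ, 0 < ζ → ∀ᶠ n : ℕ in atTop,
  ∀ x v : ℤ × ℤ, size x ≤ n → size v ≤ n →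
    |PassageTime (fun e => X e ω) x (x + v) - PassageTime (fun e => X e ω) x (x - v)| ≤
      (n : ℝ) ^ (b + ζ)

end

open Q70.Fp Q69.FL Pool.Agent.H69.FP Pool.Agent.H30.SY
open Q69.FM (hm)

lemma passage_eq (w : Sym2 (ℤ × ℤ) → ℝ) (u v : ℤ × ℤ) : PassageTime w u v = TT w u v :=
  SlowRates.passage_eq w u v

lemma size_eq (v : ℤ × ℤ) : size v = (dd 0 v : ℝ) := SlowRates.size_eq v

lemma size_le (u : ℤ × ℤ) (n : ℕ) : size u ≤ (n:ℝ) ↔ u ∈ ball n 0 := by
  rw [size_eq, mem_ball, Nat.cast_le]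

/-- closeness to the time constant in large boxes makes midpoints bisect -/
lemma bisect_of_good {μ : ℝ × ℝ → ℝ} (hS : Shape μ) {b : ℝ} {w : Ed → ℝ}
    (hL : w ∈ LGood μ b) (hU : w ∈ UGood μ b) : ∀ ζ : ℝ, 0 < ζ → ∀ᶠ n : ℕ in atTop,
    BS (pw w) n ((n:ℝ) ^ (b + ζ)) := by
  intro ζ hζ
  have hL' : ∀ ζ : ℝ, 0 < ζ → ∀ᶠ n : ℕ in atTop, ∀ u ∈ ball n 0, ∀ v ∈ ball n 0,
      mz μ (v - u) - (n:ℝ) ^ (b + ζ) ≤ TT (pw w) u v := hL
  have hU' : ∀ ζ : ℝ, 0 < ζ → ∀ᶠ n : ℕ in atTop, ∀ u ∈ ball n 0, ∀ v ∈ ball n 0,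
      TT (pw w) u v ≤ mz μ (v - u) + (n:ℝ) ^ (b + ζ) := hU
  have h3 : Tendsto (fun n : ℕ => 3 * n) atTop atTop :=
    tendsto_atTop_mono (fun n => show n ≤ 3 * n by omega) tendsto_id
  have hs : ∀ᶠ n : ℕ in atTop, 3 * ((3:ℝ) ^ (b + ζ / 2)) * (n:ℝ) ^ (b + ζ / 2) ≤ (n:ℝ) ^ (b + ζ) :=
    tendsto_natCast_atTop_atTop.eventually
      (rpow_small (c := b + ζ / 2) (a := b + ζ) (K := 3 * ((3:ℝ) ^ (b + ζ / 2))) (by linarith))
  filter_upwards [h3.eventually (hL' (ζ / 2) (by linarith)), h3.eventually (hU' (ζ / 2) (by linarith)),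
    hs] with n g1 g2 g3
  intro x hx v hv
  have hx' := mem_ball.1 hx
  have hv' := mem_ball.1 hv
  have d1 : x ∈ ball (3 * n) 0 := mem_ball.2 (by omega)
  have e0 : dd 0 (x + v) ≤ dd 0 x + dd 0 v := by
    have := dd_tri 0 x (x + v)
    have e : dd x (x + v) = dd 0 v := by
      have := dd_add 0 v x
      rwa [zero_add, add_comm v x] at this
    omega
  have d2 : x + v ∈ ball (3 * n) 0 := mem_ball.2 (by omega)
  have e1 : dd 0 (x + v + v) ≤ dd 0 (x + v) + dd 0 v := by
    have := dd_tri 0 (x + v) (x + v + v)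
    have e : dd (x + v) (x + v + v) = dd 0 v := by
      have := dd_add 0 v (x + v)
      rwa [zero_add, add_comm v (x + v)] at this
    omega
  have d3 : x + v + v ∈ ball (3 * n) 0 := mem_ball.2 (by omega)
  have a1 := g1 x d1 (x + v) d2
  have a2 := g2 x d1 (x + v) d2
  have a3 := g1 x d1 (x + v + v) d3
  have a4 := g2 x d1 (x + v + v) d3
  rw [show x + v - x = v by abel] at a1 a2
  have e2 : mz μ (x + v + v - x) = 2 * mz μ v := by
    rw [show x + v + v - x = ((2:ℕ):ℤ) • v by rw [Nat.cast_ofNat, two_smul]; abel, mz_smul hS]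
    norm_num
  rw [e2] at a3 a4
  have e3 : (((3 * n : ℕ)) : ℝ) ^ (b + ζ / 2) = (3:ℝ) ^ (b + ζ / 2) * (n:ℝ) ^ (b + ζ / 2) := by
    rw [Nat.cast_mul, Real.mul_rpow (by norm_num) (by positivity)]
    norm_num
  rw [e3] at a1 a2 a3 a4
  rw [abs_le]
  constructor <;> linarith

/-- closeness to the time constant in large boxes makes opposite passage times agree -/
lemma reflect_of_good {μ : ℝ × ℝ → ℝ} (hEV : ∀ v : ℤ × ℤ, mz μ (-v) = mz μ v) {b : ℝ} {w : Ed → ℝ}
    (hL : w ∈ LGood μ b) (hU : w ∈ UGood μ b) : ∀ ζ : ℝ, 0 < ζ → ∀ᶠ n : ℕ in atTop,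
    RS (pw w) n ((n:ℝ) ^ (b + ζ)) := by
  intro ζ hζ
  have hL' : ∀ ζ : ℝ, 0 < ζ → ∀ᶠ n : ℕ in atTop, ∀ u ∈ ball n 0, ∀ v ∈ ball n 0,
      mz μ (v - u) - (n:ℝ) ^ (b + ζ) ≤ TT (pw w) u v := hL
  have hU' : ∀ ζ : ℝ, 0 < ζ → ∀ᶠ n : ℕ in atTop, ∀ u ∈ ball n 0, ∀ v ∈ ball n 0,
      TT (pw w) u v ≤ mz μ (v - u) + (n:ℝ) ^ (b + ζ) := hU
  have h3 : Tendsto (fun n : ℕ => 3 * n) atTop atTop :=
    tendsto_atTop_mono (fun n => show n ≤ 3 * n by omega) tendsto_id
  have hs : ∀ᶠ n : ℕ in atTop, 3 * ((3:ℝ) ^ (b + ζ / 2)) * (n:ℝ) ^ (b + ζ / 2) ≤ (n:ℝ) ^ (b + ζ) :=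
    tendsto_natCast_atTop_atTop.eventually
      (rpow_small (c := b + ζ / 2) (a := b + ζ) (K := 3 * ((3:ℝ) ^ (b + ζ / 2))) (by linarith))
  filter_upwards [h3.eventually (hL' (ζ / 2) (by linarith)), h3.eventually (hU' (ζ / 2) (by linarith)),
    hs] with n g1 g2 g3
  intro x hx v hv
  have hx' := mem_ball.1 hx
  have hv' := mem_ball.1 hv
  have d1 : x ∈ ball (3 * n) 0 := mem_ball.2 (by omega)
  have key : ∀ u : ℤ × ℤ, dd 0 u ≤ n → x + u ∈ ball (3 * n) 0 := by
    intro u hu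
    have := dd_tri 0 x (x + u)
    have e : dd x (x + u) = dd 0 u := by
      have := dd_add 0 u x
      rwa [zero_add, add_comm u x] at this
    exact mem_ball.2 (by omega)
  have hnv : dd 0 (-v) ≤ n := by
    have e : dd 0 (-v) = dd 0 v := by
      simp only [dd, Prod.fst_zero, Prod.snd_zero, sub_zero, Prod.fst_neg, Prod.snd_neg,
        Int.natAbs_neg]
    omega
  have a1 := g1 x d1 (x + v) (key v hv')
  have a2 := g2 x d1 (x + v) (key v hv')
  have a3 := g1 x d1 (x + -v) (key (-v) hnv)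
  have a4 := g2 x d1 (x + -v) (key (-v) hnv)
  rw [show x + v - x = v by abel] at a1 a2
  rw [show x + -v - x = -v by abel, hEV, ← sub_eq_add_neg] at a3 a4
  have e3 : (((3 * n : ℕ)) : ℝ) ^ (b + ζ / 2) = (3:ℝ) ^ (b + ζ / 2) * (n:ℝ) ^ (b + ζ / 2) := by
    rw [Nat.cast_mul, Real.mul_rpow (by norm_num) (by positivity)]
    norm_num
  rw [e3] at a1 a2 a3 a4
  have e4 : 0 ≤ (3:ℝ) ^ (b + ζ / 2) * (n:ℝ) ^ (b + ζ / 2) := by positivity
  rw [abs_le]
  constructor <;> linarith

lemma asym_iff (w : Ed → ℝ) (r t : ℝ) : Asymmetric w r t ↔ SB w t r := by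
  unfold Asymmetric SB
  simp only [passage_eq, size_eq]

lemma dbl_iff (w : Ed → ℝ) (r t : ℝ) : NotDoubled w r t ↔ DC w t r := by
  unfold NotDoubled DC
  simp only [passage_eq, size_eq]

lemma scale_mono {μ : ℝ × ℝ → ℝ} (hS : Shape μ) {c c' : ℝ} (hc : 0 ≤ c) (hcc : c ≤ c')
    (hc' : 0 < c') : c • {x : ℝ × ℝ | μ x ≤ 1} ⊆ c' • {x : ℝ × ℝ | μ x ≤ 1} := by
  rintro _ ⟨a, ha, rfl⟩
  have ha' : μ a ≤ 1 := ha
  refine ⟨(c / c') • a, ?_, ?_⟩
  · show μ ((c / c') • a) ≤ 1
    rw [hS.hom _ _ (div_nonneg hc hc'.le)]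
    have h1 : c / c' ≤ 1 := (div_le_one hc').2 hcc
    have h0 : 0 ≤ c / c' := div_nonneg hc hc'.le
    nlinarith
  · show c' • ((c / c') • a) = c • a
    rw [smul_smul]
    congr 1
    field_simp

/-- For independent exponential edge weights on the square lattice and every exponent `b` between `0`
and `1`, the question (which is Q1 for `b = 1 / 3`) is equivalent to the property that almost surely
(or with positive probability) all midpoints in large boxes bisect, or opposite passage times agree, to closeness of the cluster to some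
dilate of the limit shape, to near symmetry of the cluster about the origin, to closeness of `T(0, v)` and `T(0, -v)`, to closeness of the cluster at time `2 t`
and the doubled cluster at time `t`, and to closeness of `T(0, 2 v)` and `2 T(0, v)`. -/
theorem result {Ω : Type} [MeasurableSpace Ω] (P : Measure Ω) [IsProbabilityMeasure P]
    (X : Sym2 (ℤ × ℤ) → Ω → ℝ) (μ : ℝ × ℝ → ℝ) (hM : Model P X μ) (b : ℝ) (hb : 0 < b)
    (hb1 : b < 1) :
    List.TFAE [
      OuterRapid P X μ b ∧ InnerRapid P X μ b,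
      RoundSlow P X μ b,
      SymmetricRapid P X b,
      SymmetricSlow P X b,
      OppositeSlow P X b,
      DoubledRapid P X b,
      DoubledSlow P X b,
      DoubleSlow P X b,
      ∀ᵐ ω ∂P, Bisecting X b ω,
      P {ω | Bisecting X b ω} ≠ 0,
      ∀ᵐ ω ∂P, Reflecting X b ω,
      P {ω | Reflecting X b ω} ≠ 0] := by
  have hW : Wts P X := ⟨hM.measurable, hM.independent, hM.exponential⟩
  have hS : Shape μ := hW.shape hM.homogeneous hM.continuous (by
    intro z
    filter_upwards [hM.limit z] with ω hω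
    simpa only [passage_eq] using hω)
  have hsub : Q69.FM.Sub (mz μ) :=
    ⟨mz_zero hS, Q69.FL.mz_add hS, mz_up hS, mz_lip hS, mz_low hS⟩
  have hM' : SlowRates.Model P X μ :=
    ⟨hM.measurable, hM.independent, hM.exponential, hM.homogeneous, hM.continuous, hM.limit⟩
  have hEV : S_EVEN := Pool.Agent.H22.SY.t_EVEN t_REV
  have hCD : S_CD := Pool.Agent.H85.SY.t_CD hEV
  have hCH : S_CHAIN := Pool.Agent.H50.SY.t_CHAIN (Pool.Agent.H59.SY.t_FAR Pool.Agent.H42.SY.t_FUB)
    (Pool.Agent.H40.SY.t_SUM t_REV)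
  have hDB : S_DBL := Pool.Agent.H5.SY.t_DBL
  have hGE : S_GEO := Pool.Agent.H76.SY.t_GEO hEV
  have hSY : S_SYM2 := Pool.Agent.H31.SY.t_SYM2 (t_SETC t_REV)
    Pool.Agent.H94.SY.t_ONE Pool.Agent.H29.SY.t_MED
  have hGE2 : S_GEO2 := Pool.Agent.H96.SY.t_GEO2
  have hDS : S_DCS := Pool.Agent.H40.SY.t_DCS Pool.Agent.H96.SY.t_ONE2
  have t_MDC : S_MDC := Pool.Agent.H22.SY.t_MDC
  have hGE3 : S_GEO3 := Pool.Agent.H96.SY.t_GEO3 hEV
  have hBX : S_BOX := t_BOX
  have hU2 : S_U2 := Pool.Agent.H40.SY.t_U2 (Pool.Agent.H50.SY.U1.t_U1 t_REV)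
  have hU3 : S_U3 := Pool.Agent.H96.SY.t_U3
  have hR2 : S_R2 := Pool.Agent.H40.SY.t_R2 (Pool.Agent.H50.SY.R1.t_R1 t_REV)
  have hR3 : S_R3 := Pool.Agent.H31.SY.t_R3 t_REV
  have hR4 : S_R4 := Pool.Agent.H59.SY.t_R4
  have hdd1 : ∀ v : ℤ × ℤ, v ≠ 0 → (1:ℝ) ≤ dd 0 v := fun v hv => by exact_mod_cast dd_pos hv
  -- translation of the probabilities
  have edev : ∀ m s v, SlowRates.devProb P X m s v = nu.real {w | s < |TT (pw w) 0 v - m|} := by
    intro m s v
    have := hW.real v (S := {x : ℝ | s < |x - m|})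
      (measurableSet_lt measurable_const (continuous_abs.measurable.comp (measurable_id.sub_const _)))
    unfold SlowRates.devProb
    simp only [SlowRates.passage_eq]
    exact this
  have eopp : ∀ s v, oppositeProb P X s v =
      nu.real {w | s < |TT (pw w) 0 v - TT (pw w) 0 (-v)|} := by
    intro s v
    refine real_transfer hW (measurableSet_lt measurable_const
      (((measurable_TT 0 v).sub (measurable_TT 0 (-v))).abs)) ?_
    intro ω hω
    show s < |PassageTime (fun e => X e ω) 0 v - PassageTime (fun e => X e ω) 0 (-v)| ↔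
      s < |TT (pw (fun e => X e ω)) 0 v - TT (pw (fun e => X e ω)) 0 (-v)|
    rw [hω]
    simp only [passage_eq]
  have edbl : ∀ s v, doubleProb P X s v =
      nu.real {w | s < |TT (pw w) 0 (v + v) - 2 * TT (pw w) 0 v|} := by
    intro s v
    refine real_transfer hW (measurableSet_lt measurable_const
      (((measurable_TT 0 (v + v)).sub ((measurable_TT 0 v).const_mul 2)).abs)) ?_
    intro ω hω
    show s < |PassageTime (fun e => X e ω) 0 (v + v) - 2 * PassageTime (fun e => X e ω) 0 v| ↔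
      s < |TT (pw (fun e => X e ω)) 0 (v + v) - 2 * TT (pw (fun e => X e ω)) 0 v|
    rw [hω]
    simp only [passage_eq]
  have easym : ∀ r t, asymProb P X r t = nu.real {w | SB (pw w) t r} := by
    intro r t
    refine real_transfer hW (t_MSB t r) ?_
    intro ω hω
    show Asymmetric (fun e => X e ω) r t ↔ SB (pw (fun e => X e ω)) t r
    rw [hω]
    exact asym_iff _ _ _
  have eund : ∀ r t, undoubledProb P X r t = nu.real {w | DC (pw w) t r} := by
    intro r t
    refine real_transfer hW (t_MDC t r) ?_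
    intro ω hω
    show NotDoubled (fun e => X e ω) r t ↔ DC (pw (fun e => X e ω)) t r
    rw [hω]
    exact dbl_iff _ _ _
  have eleave : ∀ r t, leaveProb P X μ r t = (P (Ou X μ ((1 + r) * t) t)).toReal := by
    intro r t
    unfold leaveProb Ou Cluster
    simp only [passage_eq]
  have emiss : ∀ r t, missProb P X μ r t = (P (Fl X μ ((1 - r) * t) t)).toReal := by
    intro r t
    unfold missProb Fl Cluster
    simp only [passage_eq]
  -- the question gives concentration about the time constant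
  have outerSe : OuterRapid P X μ b → ∀ a, b < a → Se μ a := by
    intro h1 a ha
    set ζ : ℝ := min ((a - b) / 2) ((1 - b) / 2) with hζ
    have h0 : 0 < ζ := lt_min (by linarith) (by linarith)
    have h2 : ζ ≤ (a - b) / 2 := min_le_left _ _
    have h3 : ζ ≤ (1 - b) / 2 := min_le_right _ _
    have h4 : Ll μ (b + ζ) (3 * (1 - b)) := by
      refine ll_of_outer hW hS hb h0 (by linarith) (by linarith) ?_
      simpa only [eleave] using h1 (ζ / 2) (by linarith) (by linarith) (3 * (1 - b)) (by linarith)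
    exact boostL hS (b0 := b + ζ) (q := 3 * (1 - b)) (by linarith) (by linarith) (by linarith)
      (by linarith) h4 (by linarith)
  have tlSe : (∀ ζ : ℝ, 0 < ζ → ∃ δ : ℝ, 0 < δ ∧ Tl μ (b + ζ) δ) → ∀ a, b < a → SeU μ a :=
    fun hT a ha => boostU hS hb hb1 (fun a ha => boost hS hb hb1 hT ha) ha
  have innerSe : InnerRapid P X μ b → ∀ a, b < a → SeU μ a := by
    intro h1
    refine tlSe (tl_of_inner (P := P) (X := X) hW hS hb hb1 fun ζ hζ hζ1 => ⟨1, one_pos, ?_⟩)
    simpa only [emiss] using h1 ζ hζ hζ1 1 one_pos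
  have hCc0 : (∀ a, b < a → Se μ a) → (∀ a, b < a → SeU μ a) → Cc (mz μ) b := by
    intro h1 h2 ζ hζ
    obtain ⟨κ, c, C, hκ, hc, hC, hU⟩ := h1 (b + ζ) (by linarith)
    obtain ⟨κ', c', C', hκ', hc', hC', hU'⟩ := h2 (b + ζ) (by linarith)
    obtain ⟨C1, hC1, hE⟩ := exp_poly ((2 * (1 - b)) / κ) (div_pos (by linarith) hκ) hc
    obtain ⟨C2, hC2, hE'⟩ := exp_poly ((2 * (1 - b)) / κ') (div_pos (by linarith) hκ') hc'
    refine ⟨C * C1 + C' * C2, fun v hv => ?_⟩
    have hn := hdd1 v hv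
    have hsub2 : {w : Ed → ℝ | (dd 0 v : ℝ) ^ (b + ζ) < |TT (pw w) 0 v - mz μ v|} ⊆
        {w | TT (pw w) 0 v < mz μ v - (dd 0 v : ℝ) ^ (b + ζ)} ∪
        {w | mz μ v + (dd 0 v : ℝ) ^ (b + ζ) < TT (pw w) 0 v} := by
      intro w hw
      rcases lt_abs.1 (show (dd 0 v : ℝ) ^ (b + ζ) < |TT (pw w) 0 v - mz μ v| from hw) with h | h
      · right
        show mz μ v + (dd 0 v : ℝ) ^ (b + ζ) < TT (pw w) 0 v
        linarith
      · left
        show TT (pw w) 0 v < mz μ v - (dd 0 v : ℝ) ^ (b + ζ)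
        linarith
    refine (measureReal_mono hsub2 (measure_ne_top _ _)).trans ((measureReal_union_le _ _).trans ?_)
    have e1 := hE ((dd 0 v : ℝ) ^ κ) (Real.one_le_rpow hn hκ.le)
    rw [← Real.rpow_mul (by linarith), show κ * -((2 * (1 - b)) / κ) = -(2 * (1 - b)) by
      field_simp] at e1
    have e1' := hE' ((dd 0 v : ℝ) ^ κ') (Real.one_le_rpow hn hκ'.le)
    rw [← Real.rpow_mul (by linarith), show κ' * -((2 * (1 - b)) / κ') = -(2 * (1 - b)) by
      field_simp] at e1'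
    have e2 : (dd 0 v : ℝ) ^ (-(2 * (1 - b))) ≤ (dd 0 v : ℝ) ^ (-(2 * (1 - b)) + ζ) :=
      Real.rpow_le_rpow_of_exponent_le hn (by linarith)
    rw [add_mul, mul_assoc, mul_assoc]
    exact add_le_add
      ((hU v hv).trans (mul_le_mul_of_nonneg_left (e1.trans (mul_le_mul_of_nonneg_left e2 hC1.le))
        hC.le))
      ((hU' v hv).trans (mul_le_mul_of_nonneg_left (e1'.trans (mul_le_mul_of_nonneg_left e2 hC2.le))
        hC'.le))
  have hCc : OuterRapid P X μ b ∧ InnerRapid P X μ b → Cc (mz μ) b :=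
    fun h => hCc0 (outerSe h.1) (innerSe h.2)
  -- concentration about arbitrary numbers gives the question
  have hback : Cn b → OuterRapid P X μ b ∧ InnerRapid P X μ b := by
    intro h
    have h1 : SlowRates.ConcSlow P X b := by
      intro ζ hζ
      obtain ⟨m, C, hC⟩ := h ζ hζ
      refine ⟨m, C, fun v hv => ?_⟩
      rw [edev, SlowRates.size_eq]
      exact hC v hv
    exact ((SlowRates.result P X μ hM' b hb hb1).out 5 0).1 h1
  have hopp : OppositeSlow P X b ↔ Df b := by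
    unfold OppositeSlow Df
    simp only [eopp, size_eq]
  have hdbl : DoubleSlow P X b ↔ Db b := by
    unfold DoubleSlow Db
    simp only [edbl, size_eq]
  tfae_have 1 → 5 := fun h => hopp.2 (hCD μ b hS hb hb1 (hCc h)).1
  tfae_have 1 → 8 := fun h => hdbl.2 (hCD μ b hS hb hb1 (hCc h)).2
  tfae_have 5 → 1 := fun h => hback (hCH b hb hb1 (hopp.1 h))
  tfae_have 8 → 1 := fun h => hback (hDB μ b hS hb hb1 (hdbl.1 h))
  tfae_have 1 → 3 := by
    rintro ⟨h1, h2⟩ ζ hζ hζ1 q hq
    obtain ⟨C1, hC1⟩ := (h1 (ζ / 2) (by linarith) (by linarith) q hq).bound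
    obtain ⟨C2, hC2⟩ := (h2 (ζ / 2) (by linarith) (by linarith) q hq).bound
    refine Asymptotics.IsBigO.of_bound (C1 + C2) ?_
    filter_upwards [hC1, hC2, eventually_ge_atTop 1,
      rpow_small (c := b + ζ / 2) (a := b + ζ) (K := 178) (by linarith)] with t g1 g2 ht g3
    have ht0 : 0 < t := by linarith
    set r : ℝ := t ^ (b - 1 + ζ / 2) with hr
    have hr0 : 0 < r := by positivity
    have hr1 : r ≤ 1 := Real.rpow_le_one_of_one_le_of_nonpos ht (by linarith)
    have hrt : r * t = t ^ (b + ζ / 2) := by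
      rw [hr, ← Real.rpow_add_one ht0.ne']
      congr 1
      ring
    have hone : (1:ℝ) ≤ t ^ (b + ζ / 2) := Real.one_le_rpow ht (by linarith)
    have hle : 1 + 88 * (r * t) ≤ t ^ (b + ζ) := by
      rw [hrt]
      linarith
    have hsub : {ω | Asymmetric (fun e => X e ω) (t ^ (b + ζ)) t} ⊆
        Ou X μ ((1 + r) * t) t ∪ Fl X μ ((1 - r) * t) t := by
      intro ω hω
      by_contra hcon
      rw [Set.mem_union, not_or] at hcon
      have k1 := not_not.1 (show ¬ ¬ _ from hcon.1)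
      have k2 := not_not.1 (show ¬ ¬ _ from hcon.2)
      refine hGE μ hS (fun e => X e ω) t r ht0 hr0 hr1 k1 k2 ?_
      obtain ⟨v, hv, hy⟩ := (asym_iff _ _ _).1
        (show Asymmetric (fun e => X e ω) (t ^ (b + ζ)) t from hω)
      exact ⟨v, hv, fun y h => hle.trans_lt (hy y h)⟩
    have hA : asymProb P X (t ^ (b + ζ)) t ≤ leaveProb P X μ r t + missProb P X μ r t := by
      rw [eleave, emiss]
      exact (measureReal_mono hsub (measure_ne_top _ _)).trans (measureReal_union_le _ _)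
    have hnn : 0 ≤ asymProb P X (t ^ (b + ζ)) t := ENNReal.toReal_nonneg
    rw [Real.norm_eq_abs, Real.norm_eq_abs, abs_of_pos (show 0 < t ^ (-q) by positivity)] at g1 g2 ⊢
    rw [abs_of_nonneg hnn, add_mul]
    exact hA.trans (add_le_add ((le_abs_self _).trans g1) ((le_abs_self _).trans g2))
  tfae_have 1 → 6 := by
    rintro ⟨h1, h2⟩ ζ hζ hζ1 q hq
    obtain ⟨C1, hC1⟩ := (h1 (ζ / 2) (by linarith) (by linarith) q hq).bound
    obtain ⟨C2, hC2⟩ := (h2 (ζ / 2) (by linarith) (by linarith) q hq).bound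
    have h2t : Tendsto (fun t : ℝ => 2 * t) atTop atTop :=
      Tendsto.const_mul_atTop (by norm_num) tendsto_id
    refine Asymptotics.IsBigO.of_bound (C1 + C2 + |C1| + |C2|) ?_
    filter_upwards [hC1, hC2, h2t.eventually hC1, h2t.eventually hC2, eventually_ge_atTop 1,
      rpow_small (c := b + ζ / 2) (a := b + ζ) (K := 408) (by linarith)] with t g1 g2 g1' g2' ht g3
    have ht0 : 0 < t := by linarith
    set r : ℝ := t ^ (b - 1 + ζ / 2) with hr
    set r2 : ℝ := (2 * t) ^ (b - 1 + ζ / 2) with hr2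
    have hr0 : 0 < r := by positivity
    have hr20 : 0 < r2 := by positivity
    have hr1 : r ≤ 1 := Real.rpow_le_one_of_one_le_of_nonpos ht (by linarith)
    have hrr : r2 ≤ r := Real.rpow_le_rpow_of_nonpos ht0 (by linarith) (by linarith)
    have hrt : r * t = t ^ (b + ζ / 2) := by
      rw [hr, ← Real.rpow_add_one ht0.ne']
      congr 1
      ring
    have hone : (1:ℝ) ≤ t ^ (b + ζ / 2) := Real.one_le_rpow ht (by linarith)
    have hle : 4 + 200 * (r * t) ≤ t ^ (b + ζ) := by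
      rw [hrt]
      linarith
    have hsub : {ω | NotDoubled (fun e => X e ω) (t ^ (b + ζ)) t} ⊆
        (Ou X μ ((1 + r) * t) t ∪ Fl X μ ((1 - r) * t) t) ∪
          (Ou X μ ((1 + r2) * (2 * t)) (2 * t) ∪ Fl X μ ((1 - r2) * (2 * t)) (2 * t)) := by
      intro ω hω
      by_contra hcon
      simp only [Set.mem_union, not_or] at hcon
      obtain ⟨⟨c1, c2⟩, c3, c4⟩ := hcon
      have k1 := not_not.1 (show ¬ ¬ _ from c1)
      have k2 := not_not.1 (show ¬ ¬ _ from c2)
      have k3 := not_not.1 (show ¬ ¬ _ from c3)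
      have k4 := not_not.1 (show ¬ ¬ _ from c4)
      have m3 : ((1 + r2) * (2 * t)) • {x : ℝ × ℝ | μ x ≤ 1} ⊆
          ((1 + r) * (2 * t)) • {x : ℝ × ℝ | μ x ≤ 1} :=
        scale_mono hS (by positivity) (by gcongr) (by positivity)
      have m4 : ((1 - r) * (2 * t)) • {x : ℝ × ℝ | μ x ≤ 1} ⊆
          ((1 - r2) * (2 * t)) • {x : ℝ × ℝ | μ x ≤ 1} := by
        rcases eq_or_lt_of_le (hrr.trans hr1) with he | hlt
        · have : r = 1 := le_antisymm hr1 (he ▸ hrr)
          rw [this, he]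
        · exact scale_mono hS (mul_nonneg (by linarith) (by linarith)) (by gcongr)
            (mul_pos (by linarith) (by linarith))
      refine hGE2 μ hS (fun e => X e ω) t r ht0 hr0 hr1 k1 k2 (k3.trans m3) (m4.trans k4) ?_
      rcases (dbl_iff _ _ _).1
        (show NotDoubled (fun e => X e ω) (t ^ (b + ζ)) t from hω) with ⟨v, hv, hy⟩ | ⟨v, hv, hy⟩
      · exact Or.inl ⟨v, hv, fun y h => hle.trans_lt (hy y h)⟩
      · exact Or.inr ⟨v, hv, fun y h => hle.trans_lt (hy y h)⟩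
    have hA : undoubledProb P X (t ^ (b + ζ)) t ≤ (leaveProb P X μ r t + missProb P X μ r t) +
        (leaveProb P X μ r2 (2 * t) + missProb P X μ r2 (2 * t)) := by
      rw [eleave, emiss, eleave, emiss]
      exact (measureReal_mono hsub (measure_ne_top _ _)).trans ((measureReal_union_le _ _).trans
        (add_le_add (measureReal_union_le _ _) (measureReal_union_le _ _)))
    have hnn : 0 ≤ undoubledProb P X (t ^ (b + ζ)) t := ENNReal.toReal_nonneg
    have hq2 : (2 * t) ^ (-q) ≤ t ^ (-q) :=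
      Real.rpow_le_rpow_of_nonpos ht0 (by linarith) (by linarith)
    rw [Real.norm_eq_abs, Real.norm_eq_abs, abs_of_pos (show 0 < t ^ (-q) by positivity)] at g1 g2 ⊢
    rw [Real.norm_eq_abs, Real.norm_eq_abs,
      abs_of_pos (show 0 < (2 * t) ^ (-q) by positivity)] at g1' g2'
    have f1 : C1 * (2 * t) ^ (-q) ≤ |C1| * t ^ (-q) :=
      (mul_le_mul_of_nonneg_right (le_abs_self _) (by positivity)).trans
        (mul_le_mul_of_nonneg_left hq2 (abs_nonneg _))
    have f2 : C2 * (2 * t) ^ (-q) ≤ |C2| * t ^ (-q) :=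
      (mul_le_mul_of_nonneg_right (le_abs_self _) (by positivity)).trans
        (mul_le_mul_of_nonneg_left hq2 (abs_nonneg _))
    have e1 := (le_abs_self _).trans g1
    have e2 := (le_abs_self _).trans g2
    have e3 := ((le_abs_self _).trans g1').trans f1
    have e4 := ((le_abs_self _).trans g2').trans f2
    rw [abs_of_nonneg hnn, add_mul, add_mul, add_mul]
    linarith
  have slow : ∀ f : ℝ → ℝ → ℝ, (∀ ζ : ℝ, 0 < ζ → ζ < 1 - b → ∀ q : ℝ, 0 < q →
      Asymptotics.IsBigO atTop (fun t : ℝ => f (t ^ (b + ζ)) t) (fun t : ℝ => t ^ (-q))) →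
      ∀ ζ : ℝ, 0 < ζ → ζ < 1 - b → Asymptotics.IsBigO atTop (fun t : ℝ => f (t ^ (b + ζ)) t)
        (fun t : ℝ => t ^ (-(2 * (1 - b)) + ζ)) := by
    intro f h ζ hζ hζ1
    refine (h ζ hζ hζ1 (2 * (1 - b)) (by linarith)).trans (Asymptotics.IsBigO.of_bound 1 ?_)
    filter_upwards [eventually_ge_atTop 1] with t ht
    have ht0 : 0 < t := by linarith
    rw [one_mul, Real.norm_eq_abs, abs_of_pos (by positivity), Real.norm_eq_abs,
      abs_of_pos (by positivity)]
    exact Real.rpow_le_rpow_of_exponent_le ht (by linarith)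
  tfae_have 3 → 4 := fun h => slow _ h
  tfae_have 6 → 7 := fun h => slow _ h
  tfae_have 4 → 1 := by
    intro h
    refine hback (hSY b hb hb1 fun ζ hζ hζ1 => ?_)
    obtain ⟨C, hC⟩ := (h ζ hζ hζ1).bound
    refine ⟨C, ?_⟩
    filter_upwards [hC, eventually_ge_atTop 1] with t ht ht1
    have ht0 : 0 < t := by linarith
    rw [easym, Real.norm_eq_abs, Real.norm_eq_abs, abs_of_nonneg measureReal_nonneg,
      abs_of_pos (show 0 < t ^ (-(2 * (1 - b)) + ζ) by positivity)] at ht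
    exact ht
  tfae_have 7 → 1 := by
    intro h
    refine hback (hDS μ b hS hb hb1 fun ζ hζ hζ1 => ?_)
    obtain ⟨C, hC⟩ := (h ζ hζ hζ1).bound
    refine ⟨C, ?_⟩
    filter_upwards [hC, eventually_ge_atTop 1] with t ht ht1
    have ht0 : 0 < t := by linarith
    rw [eund, Real.norm_eq_abs, Real.norm_eq_abs, abs_of_nonneg measureReal_nonneg,
      abs_of_pos (show 0 < t ^ (-(2 * (1 - b)) + ζ) by positivity)] at ht
    exact ht
  tfae_have 1 → 2 := by
    rintro ⟨h1, h2⟩ ζ hζ hζ1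
    obtain ⟨C1, hC1⟩ := (h1 ζ hζ hζ1 (2 * (1 - b)) (by linarith)).bound
    obtain ⟨C2, hC2⟩ := (h2 ζ hζ hζ1 (2 * (1 - b)) (by linarith)).bound
    refine Asymptotics.IsBigO.of_bound (|C1| + |C2|) ?_
    filter_upwards [hC1, hC2, eventually_ge_atTop 1] with t g1 g2 ht
    have ht0 : 0 < t := by linarith
    set r : ℝ := t ^ (b - 1 + ζ) with hr
    have hsub : {ω | NotRound μ (fun e => X e ω) r t} ⊆
        Ou X μ ((1 + r) * t) t ∪ Fl X μ ((1 - r) * t) t := by
      intro ω hω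
      by_contra hcon
      rw [Set.mem_union, not_or] at hcon
      have k1 := not_not.1 (show ¬ ¬ _ from hcon.1)
      have k2 := not_not.1 (show ¬ ¬ _ from hcon.2)
      refine (show NotRound μ (fun e => X e ω) r t from hω) t ht0.le ⟨?_, ?_⟩
      · simpa only [Cluster, passage_eq] using k2
      · simpa only [Cluster, passage_eq] using k1
    have hA : unroundProb P X μ r t ≤ leaveProb P X μ r t + missProb P X μ r t := by
      rw [eleave, emiss]
      exact (measureReal_mono hsub (measure_ne_top _ _)).trans (measureReal_union_le _ _)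
    have hnn : 0 ≤ unroundProb P X μ r t := ENNReal.toReal_nonneg
    have hle : t ^ (-(2 * (1 - b))) ≤ t ^ (-(2 * (1 - b)) + ζ) :=
      Real.rpow_le_rpow_of_exponent_le ht (by linarith)
    rw [Real.norm_eq_abs, Real.norm_eq_abs,
      abs_of_pos (show 0 < t ^ (-(2 * (1 - b))) by positivity)] at g1 g2
    rw [Real.norm_eq_abs, Real.norm_eq_abs, abs_of_nonneg hnn,
      abs_of_pos (show 0 < t ^ (-(2 * (1 - b)) + ζ) by positivity), add_mul]
    have f : ∀ C : ℝ, C * t ^ (-(2 * (1 - b))) ≤ |C| * t ^ (-(2 * (1 - b)) + ζ) := fun C =>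
      (mul_le_mul_of_nonneg_right (le_abs_self _) (by positivity)).trans
        (mul_le_mul_of_nonneg_left hle (abs_nonneg _))
    exact hA.trans (add_le_add (((le_abs_self _).trans g1).trans (f C1))
      (((le_abs_self _).trans g2).trans (f C2)))
  tfae_have 2 → 4 := by
    intro h ζ hζ hζ1
    obtain ⟨C1, hC1⟩ := (h (ζ / 2) (by linarith) (by linarith)).bound
    obtain ⟨C2, hC2, hP⟩ := half_poly (2 * (1 - b)) (by linarith)
    refine Asymptotics.IsBigO.of_bound (|C1| + C2) ?_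
    have hsm : ∀ᶠ t : ℝ in atTop, t ^ (b - 1 + ζ / 2) ≤ 1 / 2 := by
      filter_upwards [rpow_small (c := b - 1 + ζ / 2) (a := 0) (K := 2) (by linarith)] with t ht
      rw [Real.rpow_zero] at ht
      linarith
    filter_upwards [hC1, hsm, eventually_ge_atTop 1,
      rpow_small (c := b + ζ / 2) (a := b + ζ) (K := 35113) (by linarith)] with t g1 hr12 ht g3
    have ht0 : 0 < t := by linarith
    set r : ℝ := t ^ (b - 1 + ζ / 2) with hr
    have hr0 : 0 < r := by positivity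
    have hrt : r * t = t ^ (b + ζ / 2) := by
      rw [hr, ← Real.rpow_add_one ht0.ne']
      congr 1
      ring
    have hone : (1:ℝ) ≤ t ^ (b + ζ / 2) := Real.one_le_rpow ht (by linarith)
    have hle : 1 + 264 * (r * (132 * t + 1)) ≤ t ^ (b + ζ) := by
      have e1 : r * (132 * t + 1) ≤ 133 * (r * t) := by nlinarith
      rw [hrt] at e1
      linarith
    have hsub : {ω | Asymmetric (fun e => X e ω) (t ^ (b + ζ)) t} ⊆
        {ω | NotRound μ (fun e => X e ω) r t} ∪
          {ω | ∃ v : ℤ × ℤ, 132 * t < (dd 0 v : ℝ) ∧ TT (fun e => X e ω) 0 v ≤ t} := by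
      intro ω hω
      by_contra hcon
      rw [Set.mem_union, not_or] at hcon
      obtain ⟨c1, c2⟩ := hcon
      have c1' : ¬ NotRound μ (fun e => X e ω) r t := c1
      have c2' : ¬ ∃ v : ℤ × ℤ, 132 * t < (dd 0 v : ℝ) ∧ TT (fun e => X e ω) 0 v ≤ t := c2
      unfold NotRound at c1'
      push Not at c1'
      obtain ⟨ρ, hρ, k2, k1⟩ := c1'
      refine hGE3 μ hS (fun e => X e ω) t r ρ 132 ht0 hr0 hr12 hρ (fun v hv => ?_)
        (by simpa only [Cluster, passage_eq] using k1) (by simpa only [Cluster, passage_eq] using k2) ?_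
      · by_contra hc
        exact c2' ⟨v, not_le.1 hc, hv⟩
      · obtain ⟨v, hv, hy⟩ := (asym_iff _ _ _).1
          (show Asymmetric (fun e => X e ω) (t ^ (b + ζ)) t from hω)
        exact ⟨v, hv, fun y h => hle.trans_lt (hy y h)⟩
    have hbx : P.real {ω | ∃ v : ℤ × ℤ, 132 * t < (dd 0 v : ℝ) ∧ TT (fun e => X e ω) 0 v ≤ t} ≤
        C2 * t ^ (-(2 * (1 - b))) := by
      have e1 : P.real {ω | ∃ v : ℤ × ℤ, 132 * t < (dd 0 v : ℝ) ∧ TT (fun e => X e ω) 0 v ≤ t} =
          nu.real {w | ∃ v : ℤ × ℤ, 132 * t < (dd 0 v : ℝ) ∧ TT (pw w) 0 v ≤ t} := by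
        refine real_transfer hW ?_ ?_
        · have : {w : Ed → ℝ | ∃ v : ℤ × ℤ, 132 * t < (dd 0 v : ℝ) ∧ TT (pw w) 0 v ≤ t} =
              ⋃ v : ℤ × ℤ, ({_w : Ed → ℝ | 132 * t < (dd 0 v : ℝ)} ∩ {w : Ed → ℝ | TT (pw w) 0 v ≤ t}) := by
            ext w
            simp only [Set.mem_iUnion, Set.mem_inter_iff, Set.mem_ofPred_eq]
          rw [this]
          exact MeasurableSet.iUnion fun v => (MeasurableSet.const _).inter
            (measurableSet_le (measurable_TT 0 v) measurable_const)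
        · intro ω hω
          show (∃ v : ℤ × ℤ, 132 * t < (dd 0 v : ℝ) ∧ TT (fun e => X e ω) 0 v ≤ t) ↔
            ∃ v : ℤ × ℤ, 132 * t < (dd 0 v : ℝ) ∧ TT (pw (fun e => X e ω)) 0 v ≤ t
          rw [hω]
      rw [e1]
      refine (hBX t ht).trans ((hP ⌈t⌉₊).trans (mul_le_mul_of_nonneg_left ?_ hC2.le))
      exact Real.rpow_le_rpow_of_nonpos ht0 ((Nat.le_ceil t).trans (by linarith)) (by linarith)
    have hA : asymProb P X (t ^ (b + ζ)) t ≤ unroundProb P X μ r t + C2 * t ^ (-(2 * (1 - b))) :=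
      (measureReal_mono hsub (measure_ne_top _ _)).trans ((measureReal_union_le _ _).trans
        (add_le_add le_rfl hbx))
    have hnn : 0 ≤ asymProb P X (t ^ (b + ζ)) t := ENNReal.toReal_nonneg
    have hle1 : t ^ (-(2 * (1 - b)) + ζ / 2) ≤ t ^ (-(2 * (1 - b)) + ζ) :=
      Real.rpow_le_rpow_of_exponent_le ht (by linarith)
    have hle2 : t ^ (-(2 * (1 - b))) ≤ t ^ (-(2 * (1 - b)) + ζ) :=
      Real.rpow_le_rpow_of_exponent_le ht (by linarith)
    rw [Real.norm_eq_abs, Real.norm_eq_abs,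
      abs_of_pos (show 0 < t ^ (-(2 * (1 - b)) + ζ / 2) by positivity)] at g1
    rw [Real.norm_eq_abs, Real.norm_eq_abs, abs_of_nonneg hnn,
      abs_of_pos (show 0 < t ^ (-(2 * (1 - b)) + ζ) by positivity), add_mul]
    exact hA.trans (add_le_add (((le_abs_self _).trans g1).trans
      ((mul_le_mul_of_nonneg_right (le_abs_self _) (by positivity)).trans
        (mul_le_mul_of_nonneg_left hle1 (abs_nonneg _)))) (mul_le_mul_of_nonneg_left hle2 hC2.le))
  tfae_have 1 → 9 := by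
    rintro ⟨h1, h2⟩
    filter_upwards [ae_transfer hW (ae_low hS hb (outerSe h1)),
      ae_transfer hW (ae_up hS hb (innerSe h2))] with ω a1 a2
    intro ζ hζ
    filter_upwards [bisect_of_good hS a1.1 a2.1 ζ hζ] with n hn x v hx hv
    have h3 := hn x ((size_le x n).1 hx) v ((size_le v n).1 hv)
    rw [a1.2] at h3
    simpa only [passage_eq] using h3
  have aePos : ∀ p : Ω → Prop, (∀ᵐ ω ∂P, p ω) → P {ω | p ω} ≠ 0 := by
    intro p hp h0
    have h1 : P Set.univ ≤ 0 := by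
      have h2 : (Set.univ : Set Ω) ⊆ {ω | p ω} ∪ {ω | ¬ p ω} := by
        intro ω _
        by_cases h : p ω
        · exact Or.inl h
        · exact Or.inr h
      refine (measure_mono h2).trans ((measure_union_le _ _).trans ?_)
      have h3 : P {ω | ¬ p ω} = 0 := hp
      rw [h0, h3, add_zero]
    rw [measure_univ] at h1
    exact absurd h1 (by norm_num)
  tfae_have 9 → 10 := aePos _
  tfae_have 11 → 12 := aePos _
  tfae_have 10 → 1 := by
    intro h0
    have ebs : ∀ (ζ : ℝ) (n : ℕ),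
        P.real {ω | ∀ x v : ℤ × ℤ, size x ≤ n → size v ≤ n →
          |PassageTime (fun e => X e ω) x (x + v + v) -
            2 * PassageTime (fun e => X e ω) x (x + v)| ≤ (n:ℝ) ^ (b + ζ)} =
        nu.real {w | BS (pw w) n ((n:ℝ) ^ (b + ζ))} := by
      intro ζ n
      refine real_transfer hW ?_ ?_
      · have : {w : Ed → ℝ | BS (pw w) n ((n:ℝ) ^ (b + ζ))} =
            ⋂ x ∈ ball n 0, ⋂ v ∈ ball n 0,
              {w | |TT (pw w) x (x + v + v) - 2 * TT (pw w) x (x + v)| ≤ (n:ℝ) ^ (b + ζ)} := by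
          ext w; simp [BS]
        rw [this]
        exact Finset.measurableSet_biInter _ fun x _ => Finset.measurableSet_biInter _ fun v _ =>
          measurableSet_le (((measurable_TT _ _).sub ((measurable_TT _ _).const_mul 2)).abs)
            measurable_const
      · intro ω hω
        show (∀ x v : ℤ × ℤ, size x ≤ n → size v ≤ n →
          |PassageTime (fun e => X e ω) x (x + v + v) -
            2 * PassageTime (fun e => X e ω) x (x + v)| ≤ (n:ℝ) ^ (b + ζ)) ↔
          BS (pw (fun e => X e ω)) n ((n:ℝ) ^ (b + ζ))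
        rw [hω]
        unfold BS
        simp only [passage_eq, size_le]
        exact ⟨fun h x hx v hv => h x v hx hv, fun h x v hx hv => h x hx v hv⟩
    have hBp : Bp b := by
      intro ζ hζ
      obtain ⟨c, hc, h1⟩ := pos_ev (H := fun n : ℕ => {ω | ∀ x v : ℤ × ℤ, size x ≤ n → size v ≤ n →
          |PassageTime (fun e => X e ω) x (x + v + v) -
            2 * PassageTime (fun e => X e ω) x (x + v)| ≤ (n:ℝ) ^ (b + ζ)}) h0
          (fun ω hω => (show Bisecting X b ω from hω) ζ hζ)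
      refine ⟨c, hc, ?_⟩
      filter_upwards [h1] with n hn
      rwa [ebs] at hn
    have hFin : ∀ ζ : ℝ, 0 < ζ → ∃ c : ℝ, 0 < c ∧ ∀ᶠ n : ℕ in atTop,
        c ≤ nu.real {w : Ed → ℝ | ∀ u ∈ ball n 0, ∀ v ∈ ball n 0,
          |TT (pw w) u v - mz μ (v - u)| ≤ (n:ℝ) ^ (b + ζ)} := by
      obtain ⟨m, hm⟩ := hU2 Pool.Agent.H29.SY.t_MED b hb hb1 hBp
      exact hU3 μ b m hS hb hb1 hm
    have hSe : ∀ a, b < a → Se μ a := by
      intro a ha
      refine Q69.FM.boostB hsub hb (Bx_of_pos fun ζ hζ => ?_) ha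
      obtain ⟨c, hc, h1⟩ := hFin ζ hζ
      refine ⟨c, hc, ?_⟩
      filter_upwards [h1] with n hn
      refine hn.trans (measureReal_mono ?_ (measure_ne_top _ _))
      intro w hw u hu v hv
      have := (abs_le.1 (hw u hu v hv)).1
      linarith
    have hSeU : ∀ a, b < a → SeU μ a := by
      refine tlSe (tl_of_pos hb fun ζ hζ => ?_)
      obtain ⟨c, hc, h1⟩ := hFin ζ hζ
      refine ⟨c, hc, ?_⟩
      filter_upwards [h1] with n hn
      refine hn.trans (measureReal_mono ?_ (measure_ne_top _ _))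
      intro w hw u hu v hv
      have := (abs_le.1 (hw u hu v hv)).2
      linarith
    refine hback fun ζ hζ => ?_
    obtain ⟨C, hC⟩ := hCc0 hSe hSeU ζ hζ
    exact ⟨mz μ, C, hC⟩
  tfae_have 1 → 11 := by
    rintro ⟨h1, h2⟩
    have hev : ∀ v : ℤ × ℤ, mz μ (-v) = mz μ v := by
      intro v
      have := hEV μ hS ((v.1 : ℝ), (v.2 : ℝ))
      unfold mz
      rw [← this]
      congr 1
      ext <;> simp
    filter_upwards [ae_transfer hW (ae_low hS hb (outerSe h1)),
      ae_transfer hW (ae_up hS hb (innerSe h2))] with ω a1 a2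
    intro ζ hζ
    filter_upwards [reflect_of_good hev a1.1 a2.1 ζ hζ] with n hn x v hx hv
    have h3 := hn x ((size_le x n).1 hx) v ((size_le v n).1 hv)
    rw [a1.2] at h3
    simpa only [passage_eq] using h3
  tfae_have 12 → 1 := by
    intro h0
    have ers : ∀ (ζ : ℝ) (n : ℕ),
        P.real {ω | ∀ x v : ℤ × ℤ, size x ≤ n → size v ≤ n →
          |PassageTime (fun e => X e ω) x (x + v) -
            PassageTime (fun e => X e ω) x (x - v)| ≤ (n:ℝ) ^ (b + ζ)} =
        nu.real {w | RS (pw w) n ((n:ℝ) ^ (b + ζ))} := by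
      intro ζ n
      refine real_transfer hW ?_ ?_
      · have : {w : Ed → ℝ | RS (pw w) n ((n:ℝ) ^ (b + ζ))} =
            ⋂ x ∈ ball n 0, ⋂ v ∈ ball n 0,
              {w | |TT (pw w) x (x + v) - TT (pw w) x (x - v)| ≤ (n:ℝ) ^ (b + ζ)} := by
          ext w; simp [RS]
        rw [this]
        exact Finset.measurableSet_biInter _ fun x _ => Finset.measurableSet_biInter _ fun v _ =>
          measurableSet_le (((measurable_TT _ _).sub (measurable_TT _ _)).abs) measurable_const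
      · intro ω hω
        show (∀ x v : ℤ × ℤ, size x ≤ n → size v ≤ n →
          |PassageTime (fun e => X e ω) x (x + v) -
            PassageTime (fun e => X e ω) x (x - v)| ≤ (n:ℝ) ^ (b + ζ)) ↔
          RS (pw (fun e => X e ω)) n ((n:ℝ) ^ (b + ζ))
        rw [hω]
        unfold RS
        simp only [passage_eq, size_le]
        exact ⟨fun h x hx v hv => h x v hx hv, fun h x v hx hv => h x hx v hv⟩
    have hRp : Rp b := by
      intro ζ hζ
      obtain ⟨c, hc, h1⟩ := pos_ev (H := fun n : ℕ => {ω | ∀ x v : ℤ × ℤ, size x ≤ n → size v ≤ n →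
          |PassageTime (fun e => X e ω) x (x + v) -
            PassageTime (fun e => X e ω) x (x - v)| ≤ (n:ℝ) ^ (b + ζ)}) h0
          (fun ω hω => (show Reflecting X b ω from hω) ζ hζ)
      refine ⟨c, hc, ?_⟩
      filter_upwards [h1] with n hn
      rwa [ers] at hn
    -- log-concavity of the upper tail, from the library
    have hLC : ∀ (v : ℤ × ℤ) (s t θ : ℝ), 0 < θ → θ < 1 →
        nu.real {w | s ≤ TT (pw w) 0 v} ^ θ * nu.real {w | t ≤ TT (pw w) 0 v} ^ (1 - θ) ≤
          nu.real {w | θ * s + (1 - θ) * t ≤ TT (pw w) 0 v} := by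
      let _ : MeasureSpace Ω := ⟨P⟩
      have hlib := Pool.Agent.Results.MP_de94ef_pr.InnerHalf.result Ω X
        (fun ω v => PassageTime (fun e => X e ω) 0 v) μ hM.measurable hM.independent hM.exponential
        (fun ω v => rfl) hM.homogeneous hM.continuous hM.limit
      intro v s t θ h0' h1'
      have e1 : ∀ s : ℝ, P.real {ω | s ≤ PassageTime (fun e => X e ω) 0 v} =
          nu.real {w | s ≤ TT (pw w) 0 v} := by
        intro s
        simp only [passage_eq]
        exact hW.real v (measurableSet_Ici (a := s))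
      have h2 : P.real {ω | s ≤ PassageTime (fun e => X e ω) 0 v} ^ θ *
          P.real {ω | t ≤ PassageTime (fun e => X e ω) 0 v} ^ (1 - θ) ≤
          P.real {ω | θ * s + (1 - θ) * t ≤ PassageTime (fun e => X e ω) 0 v} :=
        hlib.1 v s t θ h0' h1'
      rwa [e1, e1, e1] at h2
    obtain ⟨m, hmd, hRm⟩ := hR2 Pool.Agent.H29.SY.t_MED b hb hb1 hRp
    have hBx : ∀ ζ : ℝ, 0 < ζ → Q69.FM.Bx hm b ζ := by
      intro ζ hζ
      obtain ⟨c, hc, h1⟩ := hRm (ζ / 2) (by linarith)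
      obtain ⟨n0, hn0⟩ := eventually_atTop.1 (hR3 b hb hb1 hRp (ζ / 2) (by linarith))
      have h2t : Tendsto (fun n : ℕ => 2 * n) atTop atTop :=
        tendsto_atTop_mono (fun n => show n ≤ 2 * n by omega) tendsto_id
      have tζ : Tendsto (fun s : ℕ => (s:ℝ) ^ ζ) atTop atTop :=
        (tendsto_rpow_atTop hζ).comp tendsto_natCast_atTop_atTop
      have tb : Tendsto (fun s : ℕ => (s:ℝ) ^ (b + ζ)) atTop atTop :=
        (tendsto_rpow_atTop (by linarith)).comp tendsto_natCast_atTop_atTop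
      have hs : ∀ᶠ n : ℕ in atTop,
          7 * ((2:ℝ) ^ (b + ζ / 2)) * (n:ℝ) ^ (b + ζ / 2) ≤ (n:ℝ) ^ (b + ζ) :=
        tendsto_natCast_atTop_atTop.eventually
          (rpow_small (c := b + ζ / 2) (a := b + ζ) (K := 7 * ((2:ℝ) ^ (b + ζ / 2))) (by linarith))
      filter_upwards [h2t.eventually h1, tζ.eventually_ge_atTop (-Real.log c), hs,
        tb.eventually_ge_atTop (2 * ((n0:ℝ) + 132))] with n g1 g2 g3 g4
      have g5 : Real.exp (-((n:ℝ) ^ ζ)) ≤ c := by
        calc Real.exp (-((n:ℝ) ^ ζ)) ≤ Real.exp (Real.log c) := Real.exp_le_exp.2 (by linarith)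
          _ = c := Real.exp_log hc
      refine g5.trans (g1.trans (measureReal_mono ?_ (measure_ne_top _ _)))
      intro w hw u hu v hv
      have hu' := mem_ball.1 hu
      have hv' := mem_ball.1 hv
      have huv : dd 0 (v - u) ≤ 2 * n := by
        have h4 : dd 0 (v - u) = dd u v := by
          have := dd_add 0 (v - u) u
          rw [zero_add, sub_add_cancel] at this
          exact this.symm
        have h5 := dd_tri u 0 v
        rw [dd_comm u 0] at h5
        omega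
      by_cases hsm : dd 0 (v - u) < n0 + 132
      · have h4 := Q69.FM.hm_up (v - u)
        have h5 : (dd 0 (v - u) : ℝ) ≤ n0 + 132 := by exact_mod_cast hsm.le
        have h6 := TT_nonneg (pw_nonneg w) u v
        linarith
      · push Not at hsm
        have h4 := hw u (mem_ball.2 (by omega)) (v - u) (mem_ball.2 huv)
        rw [add_sub_cancel] at h4
        have h5 := (abs_le.1 h4).1
        have hv1 : (1:ℝ) ≤ (dd 0 (v - u) : ℝ) := by
          have : 1 ≤ dd 0 (v - u) := by omega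
          exact_mod_cast this
        have h6 := hn0 (dd 0 (v - u)) (by omega) (v - u) rfl (m (v - u)) (hmd _ (by omega))
        have h7 := hR4 hLC (v - u) (m (v - u)) ((dd 0 (v - u) : ℝ) ^ (b + ζ / 2)) (by positivity)
          (hmd _ (by omega)) h6
        have h8 : (dd 0 (v - u) : ℝ) ^ (b + ζ / 2) ≤ (((2 * n : ℕ)) : ℝ) ^ (b + ζ / 2) :=
          Real.rpow_le_rpow (by positivity) (by exact_mod_cast huv) (by linarith)
        have e3 : (((2 * n : ℕ)) : ℝ) ^ (b + ζ / 2) = (2:ℝ) ^ (b + ζ / 2) * (n:ℝ) ^ (b + ζ / 2) := by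
          rw [Nat.cast_mul, Real.mul_rpow (by norm_num) (by positivity)]
          norm_num
        rw [e3] at h5 h8
        linarith
    have hSeM : ∀ a, b < a → Q69.FM.Se hm a := fun a ha =>
      Q69.FM.boostB (Q69.FM.hm_Sub hS) hb hBx ha
    have emean : ∀ v, SlowRates.meanTime P X v = hm v := by
      intro v
      unfold SlowRates.meanTime hm
      simp only [SlowRates.passage_eq]
      exact hW.int v (g := fun x => x) measurable_id
    have elowm : ∀ s v, SlowRates.lowMeanProb P X s v =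
        nu.real {w | TT (pw w) 0 v < hm v - s} := by
      intro s v
      have := hW.real v (measurableSet_Iio (a := hm v - s))
      unfold SlowRates.lowMeanProb
      simp only [SlowRates.passage_eq, emean]
      exact this
    have hMS : SlowRates.MeanSlow P X b := by
      intro ζ hζ
      obtain ⟨κ, c, C, hκ, hc, hC, hU⟩ := hSeM (b + ζ) (by linarith)
      obtain ⟨C1, hC1, hE⟩ := exp_poly ((2 * (1 - b)) / κ) (div_pos (by linarith) hκ) hc
      refine ⟨C * C1, fun v hv => ?_⟩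
      have hn := hdd1 v hv
      rw [elowm, SlowRates.size_eq]
      refine (hU v hv).trans ?_
      have e1 := hE ((dd 0 v : ℝ) ^ κ) (Real.one_le_rpow hn hκ.le)
      rw [← Real.rpow_mul (by linarith), show κ * -((2 * (1 - b)) / κ) = -(2 * (1 - b)) by
        field_simp] at e1
      have e2 : (dd 0 v : ℝ) ^ (-(2 * (1 - b))) ≤ (dd 0 v : ℝ) ^ (-(2 * (1 - b)) + ζ) :=
        Real.rpow_le_rpow_of_exponent_le hn (by linarith)
      rw [mul_assoc]
      exact mul_le_mul_of_nonneg_left (e1.trans (mul_le_mul_of_nonneg_left e2 hC1.le)) hC.le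
    exact ((SlowRates.result P X μ hM' b hb hb1).out 4 0).1 hMS
  tfae_finish

end Pool.Agent.Results.MP_de94ef_pr.CentralSymmetry
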