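import Pool.Agent.H69.FP.E

/-!
# First-passage percolation: almost sure regularity of large boxes
-/

set_option autoImplicit false

open MeasureTheory ProbabilityTheory Filter
open scoped Pointwise

namespace Pool.Agent.Results.MP_de94ef_pr.RegularBoxes

/-- The passage time from `u` to `v` for the edge weights `w`. -/
noncomputable def PassageTime (w : Sym2 (ℤ × ℤ) → ℝ) (u v : ℤ × ℤ) : ℝ :=
  sInf {s : ℝ | ∃ n : ℕ, ∃ p : ℕ → ℤ × ℤ, p 0 = u ∧ p n = v ∧
    (∀ i < n, |(p (i + 1)).1 - (p i).1| + |(p (i + 1)).2 - (p i).2| = 1) ∧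
    s = ∑ i ∈ Finset.range n, w s(p i, p (i + 1))}

/-- The weights `X e` are independent exponential variables with parameter 1, and `μ` is the time
constant: a continuous function, homogeneous of degree 1, with `T(0, n z) / n → μ z` a.s. -/
structure Model {Ω : Type} [MeasurableSpace Ω] (P : Measure Ω) (X : Sym2 (ℤ × ℤ) → Ω → ℝ)
    (μ : ℝ × ℝ → ℝ) : Prop where
  measurable : ∀ e, Measurable (X e)
  independent : iIndepFun X P
  exponential : ∀ e, Measure.map (X e) P = expMeasure 1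
  homogeneous : ∀ (x : ℝ × ℝ) (c : ℝ), 0 ≤ c → μ (c • x) = c * μ x
  continuous : Continuous μ
  limit : ∀ z : ℤ × ℤ, ∀ᵐ ω ∂P,
    Tendsto (fun n : ℕ => PassageTime (fun e => X e ω) 0 ((n : ℤ) • z) / (n : ℝ)) atTop
      (nhds (μ ((z.1 : ℝ), (z.2 : ℝ))))

/-- The norm `|v₁| + |v₂|` of a lattice point. -/
noncomputable def size (v : ℤ × ℤ) : ℝ := |(v.1 : ℝ)| + |(v.2 : ℝ)|

/-- The time constant at a lattice point. -/
noncomputable def mu (μ : ℝ × ℝ → ℝ) (v : ℤ × ℤ) : ℝ := μ ((v.1 : ℝ), (v.2 : ℝ))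

/-- The fattened cluster at time `t`. -/
def Cluster (w : Sym2 (ℤ × ℤ) → ℝ) (t : ℝ) : Set (ℝ × ℝ) :=
  {x : ℝ × ℝ | ∃ v : ℤ × ℤ, PassageTime w 0 v ≤ t ∧
    |x.1 - (v.1 : ℝ)| ≤ 1 / 2 ∧ |x.2 - (v.2 : ℝ)| ≤ 1 / 2}

section

variable {Ω : Type} [MeasurableSpace Ω] (P : Measure Ω) (X : Sym2 (ℤ × ℤ) → Ω → ℝ)
  (μ : ℝ × ℝ → ℝ)

/-- The probability that the cluster at time `t` is not contained in `(1 + r) t 𝔸`, where `𝔸` is the
limit shape. -/
noncomputable def leaveProb (r t : ℝ) : ℝ :=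
  (P {ω | ¬ (Cluster (fun e => X e ω) t ⊆ ((1 + r) * t) • {x : ℝ × ℝ | μ x ≤ 1})}).toReal

/-- The probability that the cluster at time `t` misses a part of `(1 - r) t 𝔸`. -/
noncomputable def missProb (r t : ℝ) : ℝ :=
  (P {ω | ¬ (((1 - r) * t) • {x : ℝ × ℝ | μ x ≤ 1} ⊆ Cluster (fun e => X e ω) t)}).toReal

/-- First half of the question at the exponent `b`: rapid decay. For `b = 1 / 3` this is the first
half of Q1. -/
def OuterRapid (b : ℝ) : Prop := ∀ ζ : ℝ, 0 < ζ → ζ < 1 - b → ∀ q : ℝ, 0 < q →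
  Asymptotics.IsBigO atTop (fun t : ℝ => leaveProb P X μ (t ^ (b - 1 + ζ)) t) (fun t : ℝ => t ^ (-q))

/-- Second half of the question at the exponent `b`: rapid decay. For `b = 1 / 3` this is the second
half of Q1. -/
def InnerRapid (b : ℝ) : Prop := ∀ ζ : ℝ, 0 < ζ → ζ < 1 - b → ∀ q : ℝ, 0 < q →
  Asymptotics.IsBigO atTop (fun t : ℝ => missProb P X μ (t ^ (b - 1 + ζ)) t) (fun t : ℝ => t ^ (-q))

/-- For every `ζ > 0` and every large `n`, all points `u`, `v` of the box of radius `n` satisfy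
`T(u, v) ≥ μ(v - u) - n ^ (b + ζ)`. -/
def LowRegular (b : ℝ) (ω : Ω) : Prop := ∀ ζ : ℝ, 0 < ζ → ∀ᶠ n : ℕ in atTop,
  ∀ u v : ℤ × ℤ, size u ≤ n → size v ≤ n →
    mu μ (v - u) - (n : ℝ) ^ (b + ζ) ≤ PassageTime (fun e => X e ω) u v

/-- For every `ζ > 0` and every large `n`, all points `u`, `v` of the box of radius `n` satisfy
`T(u, v) ≤ μ(v - u) + n ^ (b + ζ)`. -/
def UpRegular (b : ℝ) (ω : Ω) : Prop := ∀ ζ : ℝ, 0 < ζ → ∀ᶠ n : ℕ in atTop,
  ∀ u v : ℤ × ℤ, size u ≤ n → size v ≤ n →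
    PassageTime (fun e => X e ω) u v ≤ mu μ (v - u) + (n : ℝ) ^ (b + ζ)

end

open Q70.Fp Q69.FL Pool.Agent.H69.FP

lemma passage_eq (w : Sym2 (ℤ × ℤ) → ℝ) (u v : ℤ × ℤ) : PassageTime w u v = TT w u v := by
  unfold PassageTime TT
  congr 1
  ext s
  constructor
  · rintro ⟨n, p, h1, h2, h3, h4⟩
    exact ⟨n, p, ⟨h1, h2, h3⟩, h4⟩
  · rintro ⟨n, p, ⟨h1, h2, h3⟩, h4⟩
    exact ⟨n, p, h1, h2, h3, h4⟩

lemma size_eq (v : ℤ × ℤ) : size v = (dd 0 v : ℝ) := by
  simp only [size, dd, Prod.fst_zero, Prod.snd_zero, sub_zero]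
  push_cast [Nat.cast_natAbs]
  rfl

lemma size_le (u : ℤ × ℤ) (n : ℕ) : size u ≤ (n:ℝ) ↔ u ∈ ball n 0 := by
  rw [size_eq, mem_ball, Nat.cast_le]

/-- a stretched exponential is smaller than a power -/
lemma exp_small {κ q : ℝ} (hκ : 0 < κ) (hq : 0 < q) :
    ∃ C : ℝ, 0 < C ∧ ∀ x : ℝ, 1 ≤ x → Real.exp (-(x ^ κ)) ≤ C * x ^ (-q) := by
  obtain ⟨C, hC, h⟩ := exp_poly (q / κ) (by positivity) (c := 1) one_pos
  refine ⟨C, hC, fun x hx => ?_⟩
  have := h (x ^ κ) (Real.one_le_rpow hx hκ.le)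
  rwa [one_mul, ← Real.rpow_mul (by linarith), show κ * -(q / κ) = -q by field_simp] at this

/-- For independent exponential edge weights on the square lattice and every exponent `b` between `0`
and `1`: the first half of the question, the second half and the whole question (which are the halves
of Q1 and Q1 itself for `b = 1 / 3`) are equivalent to the almost sure regularity of large boxes, and
to its having positive probability. -/
theorem result {Ω : Type} [MeasurableSpace Ω] (P : Measure Ω) [IsProbabilityMeasure P]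
    (X : Sym2 (ℤ × ℤ) → Ω → ℝ) (μ : ℝ × ℝ → ℝ) (hM : Model P X μ) (b : ℝ) (hb : 0 < b)
    (hb1 : b < 1) :
    List.TFAE [
      OuterRapid P X μ b,
      ∀ᵐ ω ∂P, LowRegular X μ b ω,
      P {ω | LowRegular X μ b ω} ≠ 0] ∧
    List.TFAE [
      InnerRapid P X μ b,
      ∀ᵐ ω ∂P, UpRegular X μ b ω,
      P {ω | UpRegular X μ b ω} ≠ 0] ∧
    List.TFAE [
      OuterRapid P X μ b ∧ InnerRapid P X μ b,
      ∀ᵐ ω ∂P, LowRegular X μ b ω ∧ UpRegular X μ b ω,
      P {ω | LowRegular X μ b ω ∧ UpRegular X μ b ω} ≠ 0] := by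
  have hW : Wts P X := ⟨hM.measurable, hM.independent, hM.exponential⟩
  have hS : Shape μ := hW.shape hM.homogeneous hM.continuous (by
    intro z
    filter_upwards [hM.limit z] with ω hω
    simpa only [passage_eq] using hω)
  have hsub : Q69.FM.Sub (mz μ) :=
    ⟨mz_zero hS, Q69.FL.mz_add hS, mz_up hS, mz_lip hS, mz_low hS⟩
  -- translation of the probabilities
  have eleave : ∀ r t, leaveProb P X μ r t = (P (Ou X μ ((1 + r) * t) t)).toReal := by
    intro r t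
    unfold leaveProb Ou Cluster
    simp only [passage_eq]
  have emiss : ∀ r t, missProb P X μ r t = (P (Fl X μ ((1 - r) * t) t)).toReal := by
    intro r t
    unfold missProb Fl Cluster
    simp only [passage_eq]
  -- the regular boxes in the product space
  have lreg : ∀ ω, pw (fun e => X e ω) = (fun e => X e ω) →
      (LowRegular X μ b ω ↔ (fun e => X e ω) ∈ LGood μ b) := by
    intro ω hω
    unfold LowRegular
    show _ ↔ ∀ ζ : ℝ, 0 < ζ → ∀ᶠ n : ℕ in atTop, ∀ u ∈ ball n 0, ∀ v ∈ ball n 0,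
      mz μ (v - u) - (n:ℝ) ^ (b + ζ) ≤ TT (pw (fun e => X e ω)) u v
    rw [hω]
    simp only [passage_eq, size_le]
    constructor
    · intro h ζ hζ
      filter_upwards [h ζ hζ] with n hn u hu v hv using hn u v hu hv
    · intro h ζ hζ
      filter_upwards [h ζ hζ] with n hn u v hu hv using hn u hu v hv
  have ureg : ∀ ω, pw (fun e => X e ω) = (fun e => X e ω) →
      (UpRegular X μ b ω ↔ (fun e => X e ω) ∈ UGood μ b) := by
    intro ω hω
    unfold UpRegular
    show _ ↔ ∀ ζ : ℝ, 0 < ζ → ∀ᶠ n : ℕ in atTop, ∀ u ∈ ball n 0, ∀ v ∈ ball n 0,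
      TT (pw (fun e => X e ω)) u v ≤ mz μ (v - u) + (n:ℝ) ^ (b + ζ)
    rw [hω]
    simp only [passage_eq, size_le]
    constructor
    · intro h ζ hζ
      filter_upwards [h ζ hζ] with n hn u hu v hv using hn u v hu hv
    · intro h ζ hζ
      filter_upwards [h ζ hζ] with n hn u v hu hv using hn u hu v hv
  -- the box events
  have ebl : ∀ (ζ : ℝ) (n : ℕ),
      P.real {ω | ∀ u v : ℤ × ℤ, size u ≤ n → size v ≤ n →
        mu μ (v - u) - (n:ℝ) ^ (b + ζ) ≤ PassageTime (fun e => X e ω) u v} =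
      nu.real {w | ∀ u ∈ ball n 0, ∀ v ∈ ball n 0, mz μ (v - u) - (n:ℝ) ^ (b + ζ) ≤ TT (pw w) u v} := by
    intro ζ n
    refine real_transfer hW ?_ ?_
    · have : {w : Ed → ℝ | ∀ u ∈ ball n 0, ∀ v ∈ ball n 0,
          mz μ (v - u) - (n:ℝ) ^ (b + ζ) ≤ TT (pw w) u v} =
          ⋂ u ∈ ball n 0, ⋂ v ∈ ball n 0, {w | mz μ (v - u) - (n:ℝ) ^ (b + ζ) ≤ TT (pw w) u v} := by
        ext w; simp
      rw [this]
      exact Finset.measurableSet_biInter _ fun u _ => Finset.measurableSet_biInter _ fun v _ =>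
        measurableSet_le measurable_const (measurable_TT _ _)
    · intro ω hω
      show (∀ u v : ℤ × ℤ, size u ≤ n → size v ≤ n →
        mu μ (v - u) - (n:ℝ) ^ (b + ζ) ≤ PassageTime (fun e => X e ω) u v) ↔
        ∀ u ∈ ball n 0, ∀ v ∈ ball n 0, mz μ (v - u) - (n:ℝ) ^ (b + ζ) ≤ TT (pw (fun e => X e ω)) u v
      rw [hω]
      simp only [passage_eq, size_le]
      exact ⟨fun h u hu v hv => h u v hu hv, fun h u v hu hv => h u hu v hv⟩
  have ebu : ∀ (ζ : ℝ) (n : ℕ),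
      P.real {ω | ∀ u v : ℤ × ℤ, size u ≤ n → size v ≤ n →
        PassageTime (fun e => X e ω) u v ≤ mu μ (v - u) + (n:ℝ) ^ (b + ζ)} =
      nu.real {w | ∀ u ∈ ball n 0, ∀ v ∈ ball n 0, TT (pw w) u v ≤ mz μ (v - u) + (n:ℝ) ^ (b + ζ)} := by
    intro ζ n
    refine real_transfer hW ?_ ?_
    · have : {w : Ed → ℝ | ∀ u ∈ ball n 0, ∀ v ∈ ball n 0,
          TT (pw w) u v ≤ mz μ (v - u) + (n:ℝ) ^ (b + ζ)} =
          ⋂ u ∈ ball n 0, ⋂ v ∈ ball n 0, {w | TT (pw w) u v ≤ mz μ (v - u) + (n:ℝ) ^ (b + ζ)} := by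
        ext w; simp
      rw [this]
      exact Finset.measurableSet_biInter _ fun u _ => Finset.measurableSet_biInter _ fun v _ =>
        measurableSet_le (measurable_TT _ _) measurable_const
    · intro ω hω
      show (∀ u v : ℤ × ℤ, size u ≤ n → size v ≤ n →
        PassageTime (fun e => X e ω) u v ≤ mu μ (v - u) + (n:ℝ) ^ (b + ζ)) ↔
        ∀ u ∈ ball n 0, ∀ v ∈ ball n 0, TT (pw (fun e => X e ω)) u v ≤ mz μ (v - u) + (n:ℝ) ^ (b + ζ)
      rw [hω]
      simp only [passage_eq, size_le]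
      exact ⟨fun h u hu v hv => h u v hu hv, fun h u v hu hv => h u hu v hv⟩
  -- the bridges between the question and the one-point bounds
  have seOuter : (∀ a, b < a → Se μ a) → OuterRapid P X μ b := by
    intro hSe ζ hζ hζ1 q hq
    obtain ⟨κ, hκ, hU⟩ := outer_of_Se (P := P) (X := X) hW hS hb hSe hζ
    obtain ⟨C1, hC1, hE⟩ := exp_small hκ hq
    refine Asymptotics.IsBigO.of_bound (2 * C1) ?_
    filter_upwards [hU, eventually_ge_atTop 1] with t ht ht1
    rw [eleave, Real.norm_eq_abs, abs_of_nonneg ENNReal.toReal_nonneg, Real.norm_eq_abs,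
      abs_of_nonneg (by positivity)]
    have := hE t ht1
    linarith
  have outerSe : OuterRapid P X μ b → ∀ a, b < a → Se μ a := by
    intro h1 a ha
    set ζ : ℝ := min ((a - b) / 2) ((1 - b) / 2) with hζ
    have h0 : 0 < ζ := lt_min (by linarith) (by linarith)
    have h2 : ζ ≤ (a - b) / 2 := min_le_left _ _
    have h3 : ζ ≤ (1 - b) / 2 := min_le_right _ _
    have h4 : Ll μ (b + ζ) (3 * (1 - b)) := by
      refine ll_of_outer hW hS hb h0 (by linarith) (by linarith) ?_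
      simpa only [eleave] using h1 (ζ / 2) (by linarith) (by linarith) (3 * (1 - b)) (by linarith)
    exact boostL hS (b0 := b + ζ) (q := 3 * (1 - b)) (by linarith) (by linarith) (by linarith)
      (by linarith) h4 (by linarith)
  have seInner : (∀ a, b < a → SeU μ a) → InnerRapid P X μ b := by
    intro hSe ζ hζ hζ1 q hq
    have := inner_of_HH (P := P) (X := X) hW hS hb (fun a ha => HH_of_SeU (hSe a ha)) hζ hζ1 hq
    simpa only [emiss] using this
  have tlSe : (∀ ζ : ℝ, 0 < ζ → ∃ δ : ℝ, 0 < δ ∧ Tl μ (b + ζ) δ) → ∀ a, b < a → SeU μ a :=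
    fun hT a ha => boostU hS hb hb1 (fun a ha => boost hS hb hb1 hT ha) ha
  have innerSe : InnerRapid P X μ b → ∀ a, b < a → SeU μ a := by
    intro h1
    refine tlSe (tl_of_inner (P := P) (X := X) hW hS hb hb1 fun ζ hζ hζ1 => ⟨1, one_pos, ?_⟩)
    simpa only [emiss] using h1 ζ hζ hζ1 1 one_pos
  -- almost sure regularity
  have aeL : (∀ a, b < a → Se μ a) → ∀ᵐ ω ∂P, LowRegular X μ b ω := by
    intro h1
    filter_upwards [ae_transfer hW (ae_low hS hb h1)] with ω hω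
    exact (lreg ω hω.2).2 hω.1
  have aeU : (∀ a, b < a → SeU μ a) → ∀ᵐ ω ∂P, UpRegular X μ b ω := by
    intro h1
    filter_upwards [ae_transfer hW (ae_up hS hb h1)] with ω hω
    exact (ureg ω hω.2).2 hω.1
  have aePos : ∀ p : Ω → Prop, (∀ᵐ ω ∂P, p ω) → P {ω | p ω} ≠ 0 := by
    intro p hp h0
    have h1 : P Set.univ ≤ 0 := by
      have h2 : (Set.univ : Set Ω) ⊆ {ω | p ω} ∪ {ω | ¬ p ω} := by
        intro ω _
        by_cases h : p ω
        · exact Or.inl h
        · exact Or.inr h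
      refine (measure_mono h2).trans ((measure_union_le _ _).trans ?_)
      have h3 : P {ω | ¬ p ω} = 0 := hp
      rw [h0, h3, add_zero]
    rw [measure_univ] at h1
    exact absurd h1 (by norm_num)
  have posL : ∀ G : Set Ω, P G ≠ 0 → (∀ ω ∈ G, LowRegular X μ b ω) → ∀ a, b < a → Se μ a := by
    intro G hG hGL a ha
    refine Q69.FM.boostB hsub hb (Bx_of_pos fun ζ hζ => ?_) ha
    obtain ⟨c, hc, h1⟩ := pos_ev (H := fun n : ℕ => {ω | ∀ u v : ℤ × ℤ, size u ≤ n → size v ≤ n →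
        mu μ (v - u) - (n:ℝ) ^ (b + ζ) ≤ PassageTime (fun e => X e ω) u v}) hG
        (fun ω hω => hGL ω hω ζ hζ)
    refine ⟨c, hc, ?_⟩
    filter_upwards [h1] with n hn
    rwa [ebl] at hn
  have posU : ∀ G : Set Ω, P G ≠ 0 → (∀ ω ∈ G, UpRegular X μ b ω) → ∀ a, b < a → SeU μ a := by
    intro G hG hGU
    refine tlSe (tl_of_pos hb fun ζ hζ => ?_)
    obtain ⟨c, hc, h1⟩ := pos_ev (H := fun n : ℕ => {ω | ∀ u v : ℤ × ℤ, size u ≤ n → size v ≤ n →
        PassageTime (fun e => X e ω) u v ≤ mu μ (v - u) + (n:ℝ) ^ (b + ζ)}) hG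
        (fun ω hω => hGU ω hω ζ hζ)
    refine ⟨c, hc, ?_⟩
    filter_upwards [h1] with n hn
    rwa [ebu] at hn
  have first : List.TFAE [
      OuterRapid P X μ b,
      ∀ᵐ ω ∂P, LowRegular X μ b ω,
      P {ω | LowRegular X μ b ω} ≠ 0] := by
    tfae_have 1 → 2 := fun h => aeL (outerSe h)
    tfae_have 2 → 3 := aePos _
    tfae_have 3 → 1 := fun h => seOuter (posL _ h fun ω hω => hω)
    tfae_finish
  have second : List.TFAE [
      InnerRapid P X μ b,
      ∀ᵐ ω ∂P, UpRegular X μ b ω,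
      P {ω | UpRegular X μ b ω} ≠ 0] := by
    tfae_have 1 → 2 := fun h => aeU (innerSe h)
    tfae_have 2 → 3 := aePos _
    tfae_have 3 → 1 := fun h => seInner (posU _ h fun ω hω => hω)
    tfae_finish
  refine ⟨first, second, ?_⟩
  tfae_have 1 → 2 := by
    rintro ⟨h1, h2⟩
    filter_upwards [aeL (outerSe h1), aeU (innerSe h2)] with ω a1 a2 using ⟨a1, a2⟩
  tfae_have 2 → 3 := aePos _
  tfae_have 3 → 1 := fun h =>
    ⟨seOuter (posL _ h fun ω hω => hω.1), seInner (posU _ h fun ω hω => hω.2)⟩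
  tfae_finish

end Pool.Agent.Results.MP_de94ef_pr.RegularBoxes
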