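import Pool.Agent.H69.FP.E
import Pool.Agent.H69.FP.L
import Pool.Graph.R_pool_sql_team_seeded_63374d34.Results.MP_de94ef_pr.InnerHalf

/-!
# First-passage percolation: a strong failure of the question, or an exponent beyond one half
-/

set_option autoImplicit false

open MeasureTheory ProbabilityTheory Filter
open scoped Pointwise

namespace Pool.Agent.Results.MP_de94ef_pr.Trichotomy

/-- The passage time from `u` to `v` for the edge weights `w`. -/
noncomputable def PassageTime (w : Sym2 (ℤ × ℤ) → ℝ) (u v : ℤ × ℤ) : ℝ :=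
  sInf {s : ℝ | ∃ n : ℕ, ∃ p : ℕ → ℤ × ℤ, p 0 = u ∧ p n = v ∧
    (∀ i < n, |(p (i + 1)).1 - (p i).1| + |(p (i + 1)).2 - (p i).2| = 1) ∧
    s = ∑ i ∈ Finset.range n, w s(p i, p (i + 1))}

/-- The weights `X e` are independent exponential variables with parameter 1, and `μ` is the time
constant: a continuous function, homogeneous of degree 1, with `T(0, n z) / n → μ z` a.s. -/
structure Model {Ω : Type} [MeasurableSpace Ω] (P : Measure Ω) (X : Sym2 (ℤ × ℤ) → Ω → ℝ)
    (μ : ℝ × ℝ → ℝ) : Prop where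
  measurable : ∀ e, Measurable (X e)
  independent : iIndepFun X P
  exponential : ∀ e, Measure.map (X e) P = expMeasure 1
  homogeneous : ∀ (x : ℝ × ℝ) (c : ℝ), 0 ≤ c → μ (c • x) = c * μ x
  continuous : Continuous μ
  limit : ∀ z : ℤ × ℤ, ∀ᵐ ω ∂P,
    Tendsto (fun n : ℕ => PassageTime (fun e => X e ω) 0 ((n : ℤ) • z) / (n : ℝ)) atTop
      (nhds (μ ((z.1 : ℝ), (z.2 : ℝ))))

/-- The fattened cluster at time `t`. -/
def Cluster (w : Sym2 (ℤ × ℤ) → ℝ) (t : ℝ) : Set (ℝ × ℝ) :=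
  {x : ℝ × ℝ | ∃ v : ℤ × ℤ, PassageTime w 0 v ≤ t ∧
    |x.1 - (v.1 : ℝ)| ≤ 1 / 2 ∧ |x.2 - (v.2 : ℝ)| ≤ 1 / 2}

section

variable {Ω : Type} [MeasurableSpace Ω] (P : Measure Ω) (X : Sym2 (ℤ × ℤ) → Ω → ℝ)
  (μ : ℝ × ℝ → ℝ)

/-- The probability that the cluster at time `t` is not contained in `(1 + r) t 𝔸`, where `𝔸` is the
limit shape. -/
noncomputable def leaveProb (r t : ℝ) : ℝ :=
  (P {ω | ¬ (Cluster (fun e => X e ω) t ⊆ ((1 + r) * t) • {x : ℝ × ℝ | μ x ≤ 1})}).toReal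

/-- The probability that the cluster at time `t` misses a part of `(1 - r) t 𝔸`. -/
noncomputable def missProb (r t : ℝ) : ℝ :=
  (P {ω | ¬ (((1 - r) * t) • {x : ℝ × ℝ | μ x ≤ 1} ⊆ Cluster (fun e => X e ω) t)}).toReal

/-- First half of the question at the exponent `b`: rapid decay. For `b = 1 / 3` this is the first
half of Q1. -/
def OuterRapid (b : ℝ) : Prop := ∀ ζ : ℝ, 0 < ζ → ζ < 1 - b → ∀ q : ℝ, 0 < q →
  Asymptotics.IsBigO atTop (fun t : ℝ => leaveProb P X μ (t ^ (b - 1 + ζ)) t) (fun t : ℝ => t ^ (-q))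

/-- Strong failure of the second half at the exponent `b`: for some `ζ > 0` and `r = t ^ (b - 1 + ζ)`,
the upper limit for `t → ∞` of the probability that the cluster misses a part of `(1 - r) t 𝔸` is at
least `exp (-1)`. -/
def InnerFails (b : ℝ) : Prop := ∃ ζ : ℝ, 0 < ζ ∧ ζ < 1 - b ∧ ∀ e : ℝ, e < Real.exp (-1) →
  ∃ᶠ t : ℝ in atTop, e < missProb P X μ (t ^ (b - 1 + ζ)) t

/-- Strong failure of the first half at the exponent `b`, with a parameter `η`: for some `ζ > 0` and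
arbitrarily large `T` the cluster leaves `(1 + r) t 𝔸`, where `r = t ^ (b - 1 + ζ)`, with probability
more than `1 - exp (-t ^ (ζ - η))`, for all times `t` between `T` and `T ^ (1 + ζ)`. -/
def OuterFails (b η : ℝ) : Prop := ∃ ζ : ℝ, 0 < ζ ∧ ζ < 1 - b ∧ ∃ᶠ T : ℝ in atTop,
  ∀ t : ℝ, T ≤ t → t ≤ T ^ (1 + ζ) →
    1 - Real.exp (-(t ^ (ζ - η))) < leaveProb P X μ (t ^ (b - 1 + ζ)) t

end

open Q70.Fp Q69.FL Pool.Agent.H69.FP

lemma passage_eq (w : Sym2 (ℤ × ℤ) → ℝ) (u v : ℤ × ℤ) : PassageTime w u v = TT w u v := by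
  unfold PassageTime TT
  congr 1
  ext s
  constructor
  · rintro ⟨n, p, h1, h2, h3, h4⟩
    exact ⟨n, p, ⟨h1, h2, h3⟩, h4⟩
  · rintro ⟨n, p, ⟨h1, h2, h3⟩, h4⟩
    exact ⟨n, p, h1, h2, h3, h4⟩

/-- a stretched exponential is smaller than a power -/
lemma exp_small {κ q : ℝ} (hκ : 0 < κ) (hq : 0 < q) :
    ∃ C : ℝ, 0 < C ∧ ∀ x : ℝ, 1 ≤ x → Real.exp (-(x ^ κ)) ≤ C * x ^ (-q) := by
  obtain ⟨C, hC, h⟩ := exp_poly (q / κ) (by positivity) (c := 1) one_pos
  refine ⟨C, hC, fun x hx => ?_⟩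
  have := h (x ^ κ) (Real.one_le_rpow hx hκ.le)
  rwa [one_mul, ← Real.rpow_mul (by linarith), show κ * -(q / κ) = -q by field_simp] at this

/-- For independent exponential edge weights on the square lattice and `0 < b ≤ β < 1`,
`b - β ≤ η ≤ 1 - β`, one of three things happens: the second half of the question fails strongly at
the exponent `b`; or the first half holds at the exponent `3 β / (2 + β + η)`; or the first half
fails strongly at the exponent `β`. For `b = β = 1 / 3` and `η = 0` the exponent in the middle is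
`3 / 7`; for `b = 1 / 3`, `β = 13 / 36` and `η = - 1 / 36` it is `13 / 28`. -/
theorem result {Ω : Type} [MeasurableSpace Ω] (P : Measure Ω) [IsProbabilityMeasure P]
    (X : Sym2 (ℤ × ℤ) → Ω → ℝ) (μ : ℝ × ℝ → ℝ) (hM : Model P X μ) (b β η : ℝ) (hb : 0 < b)
    (hbβ : b ≤ β) (hβ1 : β < 1) (hη : b - β ≤ η) (hη1 : η ≤ 1 - β) :
    InnerFails P X μ b ∨ OuterRapid P X μ (3 * β / (2 + β + η)) ∨ OuterFails P X μ β η := by
  by_cases hIF : InnerFails P X μ b
  · exact Or.inl hIF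
  by_cases hOF : OuterFails P X μ β η
  · exact Or.inr (Or.inr hOF)
  refine Or.inr (Or.inl ?_)
  have hβ0 : 0 < β := by linarith
  have hb1 : b < 1 := by linarith
  have hden : 0 < 2 + β + η := by linarith
  rcases le_or_gt (2 + β + η) (3 * β) with h3 | h3
  · intro ζ hζ hζ1
    exfalso
    have : 1 ≤ 3 * β / (2 + β + η) := by
      rw [le_div_iff₀ hden]
      linarith
    linarith
  have hI : ∀ ζ : ℝ, 0 < ζ → ζ < 1 - b → ∃ e : ℝ, e < Real.exp (-1) ∧
      ∀ᶠ t : ℝ in atTop, missProb P X μ (t ^ (b - 1 + ζ)) t ≤ e := by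
    intro ζ hζ hζ1
    by_contra hc
    refine hIF ⟨ζ, hζ, hζ1, fun e he => ?_⟩
    by_contra hc2
    rw [not_frequently] at hc2
    exact hc ⟨e, he, hc2.mono fun t ht => not_lt.1 ht⟩
  have hO : ∀ ζ : ℝ, 0 < ζ → ζ < 1 - β → ∀ᶠ T : ℝ in atTop, ∃ t : ℝ, T ≤ t ∧ t ≤ T ^ (1 + ζ) ∧
      leaveProb P X μ (t ^ (β - 1 + ζ)) t ≤ 1 - Real.exp (-(t ^ (ζ - η))) := by
    intro ζ hζ hζ1
    by_contra hc
    refine hOF ⟨ζ, hζ, hζ1, ?_⟩
    rw [not_eventually] at hc
    refine hc.mono fun T hT t h1 h2 => ?_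
    by_contra h3
    exact hT ⟨t, h1, h2, not_lt.1 h3⟩
  have hW : Wts P X := ⟨hM.measurable, hM.independent, hM.exponential⟩
  have hS : Shape μ := hW.shape hM.homogeneous hM.continuous (by
    intro z
    filter_upwards [hM.limit z] with ω hω
    simpa only [passage_eq] using hω)
  have hsub : Q69.FM.Sub (mz μ) :=
    ⟨mz_zero hS, Q69.FL.mz_add hS, mz_up hS, mz_lip hS, mz_low hS⟩
  have eleave : ∀ r t, leaveProb P X μ r t = (P (Ou X μ ((1 + r) * t) t)).toReal := by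
    intro r t
    unfold leaveProb Ou Cluster
    simp only [passage_eq]
  have emiss : ∀ r t, missProb P X μ r t = (P (Fl X μ ((1 - r) * t) t)).toReal := by
    intro r t
    unfold missProb Fl Cluster
    simp only [passage_eq]
  have hb' : 0 < 3 * β / (2 + β + η) := div_pos (by linarith) (by linarith)
  have tlSe : (∀ ζ : ℝ, 0 < ζ → ∃ δ : ℝ, 0 < δ ∧ Tl μ (b + ζ) δ) → ∀ a, b < a → SeU μ a :=
    fun hT a ha => boostU hS hb hb1 (fun a ha => boost hS hb hb1 hT ha) ha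
  -- the results of the library on the upper tail
  let _ : MeasureSpace Ω := ⟨P⟩
  have hlib := Pool.Agent.Results.MP_de94ef_pr.InnerHalf.result Ω X
    (fun ω v => PassageTime (fun e => X e ω) 0 v) μ hM.measurable hM.independent hM.exponential
    (fun ω v => rfl) hM.homogeneous hM.continuous hM.limit
  obtain ⟨-, hone, -, -, htfae⟩ := hlib
  have hU : ∀ a, b < a → SeU μ a := by
    have h2 := (htfae (1 - b) (by linarith)).out 0 1
    have h3 := h2.1 (by
      intro κ hκ0 hκ1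
      obtain ⟨e, he, h4⟩ := hI (1 - b - κ) (by linarith) (by linarith)
      refine ⟨e, he, ?_⟩
      filter_upwards [h4] with t ht
      rw [show b - 1 + (1 - b - κ) = -κ by ring] at ht
      exact ht)
    have h1 : ∀ ζ : ℝ, 0 < ζ → ζ < 1 - b → ∀ q : ℝ, 0 < q → Asymptotics.IsBigO atTop
        (fun t : ℝ => missProb P X μ (t ^ (b - 1 + ζ)) t) (fun t : ℝ => t ^ (-q)) := by
      intro ζ hζ hζ1 q hq
      have h5 := h3 (1 - b - ζ) (by linarith) (by linarith) q hq
      rw [show b - 1 + ζ = -(1 - b - ζ) by ring]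
      exact h5
    refine tlSe (tl_of_inner (P := P) (X := X) hW hS hb hb1 fun ζ hζ hζ1 => ⟨1, one_pos, ?_⟩)
    simpa only [emiss] using h1 ζ hζ hζ1 1 one_pos
  have hlc : ∀ (v : ℤ × ℤ) (r d : ℝ), 0 < r → 0 < d →
      nu.real {w | mz μ v + r ≤ TT (pw w) 0 v} ≤ Real.exp (-(1 + d)) →
      ∀ u : ℝ, 0 ≤ u → nu.real {w | mz μ v + r + u ≤ TT (pw w) 0 v} ≤
        Real.exp (-(1 + d + d * u / r)) := by
    intro v r d hr hd h1 u hu
    have e1 : ∀ s : ℝ, P.real {ω | s ≤ PassageTime (fun e => X e ω) 0 v} =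
        nu.real {w | s ≤ TT (pw w) 0 v} := by
      intro s
      simp only [passage_eq]
      exact hW.real v (measurableSet_Ici (a := s))
    have h2 := (hone v r d hr hd (by
      show P.real {ω | mz μ v + r ≤ PassageTime (fun e => X e ω) 0 v} ≤ _
      rw [e1]
      exact h1)).1 u hu
    have h3 : P.real {ω | mz μ v + r + u ≤ PassageTime (fun e => X e ω) 0 v} ≤
        Real.exp (-(1 + d + d * u / r)) := h2
    rwa [e1] at h3
  have hSe : ∀ a, 3 * β / (2 + β + η) < a → Q69.FM.Se (mz μ) a := by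
    intro a ha
    refine boost_rate hsub hb' (fun b1 h1 =>
      weak_rate2 hS hb hbβ hβ1 hη hη1 h3 hU hlc ?_ h1) ha
    intro ζ hζ hζ1
    filter_upwards [hO ζ hζ hζ1, eventually_ge_atTop 1] with T hT hT1
    obtain ⟨t, h1, h2, h3⟩ := hT
    refine ⟨t, h1, h2, ?_⟩
    have ht0 : 0 < t := by linarith
    rw [eleave, one_add_mul ht0] at h3
    exact (Dx_le_Ou hW hS (by positivity)).trans h3
  intro ζ hζ hζ1 q hq
  obtain ⟨κ, hκ, hV⟩ := outer_of_Se (P := P) (X := X) hW hS hb' hSe hζ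
  obtain ⟨C1, hC1, hE⟩ := exp_small hκ hq
  refine Asymptotics.IsBigO.of_bound (2 * C1) ?_
  filter_upwards [hV, eventually_ge_atTop 1] with t ht ht1
  rw [eleave, Real.norm_eq_abs, abs_of_nonneg ENNReal.toReal_nonneg, Real.norm_eq_abs,
    abs_of_nonneg (by positivity)]
  have := hE t ht1
  linarith

end Pool.Agent.Results.MP_de94ef_pr.Trichotomy
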